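import Pool.Agent.Lib.MP_72e2e6_nt.Sm.Y.Spec

/-!
# MP_72e2e6_nt, `Sm/Y/IdxE`: the index of the subgroups of the bridge
-/

namespace Pool.Agent.MP72S

open Finset

theorem tIdxE : S_IdxE := by
  intro G N P ι X Y _ _ _ _ _ _ _ D hD I t' q c F ht' hq hS H hH
  classical
  have hfin : Finite {x : N // 2 • x = 0} := by
    apply Nat.finite_of_card_ne_zero
    rw [hD.four]; norm_num
  have he0 : D.e 0 t' = 0 := by
    have h := hD.e_add 0 0 t' (smul_zero 2) (smul_zero 2) ht'
    rw [add_zero] at h
    exact left_eq_add.mp h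
  -- the classifying map
  let φ : G → (X → ZMod 2) × (Y → (({i // i ∈ I} → ZMod 2) ×
      ({U // U ∈ I.powerset} → {x : N // 2 • x = 0}))) := fun h =>
    (fun x => q x h, fun y => (fun i => c y i.1 h, fun U =>
      ⟨F y U.1 h, (hS y).two U.1 (Finset.mem_powerset.mp U.2) h⟩))
  have key : ∀ g h : G, φ g = φ h → g * h⁻¹ ∈ H := by
    intro g h hgh
    have h1 : ∀ x, q x g = q x h := fun x => congrFun (congrArg Prod.fst hgh) x
    have h2 : ∀ y, ∀ i ∈ I, c y i g = c y i h := fun y i hi =>
      congrFun (congrArg Prod.fst (congrFun (congrArg Prod.snd hgh) y)) ⟨i, hi⟩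
    have h3 : ∀ y, ∀ U ⊆ I, F y U g = F y U h := fun y U hU =>
      congrArg Subtype.val (congrFun (congrArg Prod.snd (congrFun (congrArg Prod.snd hgh) y))
        ⟨U, Finset.mem_powerset.mpr hU⟩)
    have hk : g * h⁻¹ * h = g := inv_mul_cancel_right g h
    have k1 : ∀ x, q x (g * h⁻¹) = 0 := by
      intro x
      have := hq x (g * h⁻¹) h
      rw [hk, h1 x] at this
      exact right_eq_add.mp this
    have k2 : ∀ y, ∀ i ∈ I, c y i (g * h⁻¹) = 0 := by
      intro y i hi
      have := (hS y).hom i hi (g * h⁻¹) h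
      rw [hk, h2 y i hi] at this
      exact right_eq_add.mp this
    have k3 : ∀ y, ∀ U ⊆ I, F y U (g * h⁻¹) = 0 := by
      intro y U hU
      have := (hS y).mul U hU (g * h⁻¹) h
      have hf : (U.filter fun i => c y i (g * h⁻¹) = 1) = ∅ := by
        apply Finset.filter_eq_empty_iff.mpr
        intro i hi hc
        rw [k2 y i (hU hi)] at hc
        exact absurd hc (by decide)
      rw [hk, hf, Finset.powerset_empty, Finset.sum_singleton, Finset.sdiff_empty, h3 y U hU]
        at this
      exact right_eq_add.mp this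
    apply hH _ k1
    intro y
    refine ⟨⟨k2 y, fun U hU _ => k3 y U hU⟩, ?_⟩
    rw [k3 y I (Finset.Subset.refl I), he0]
  have hcard : Nat.card ((X → ZMod 2) × (Y → (({i // i ∈ I} → ZMod 2) ×
      ({U // U ∈ I.powerset} → {x : N // 2 • x = 0})))) =
      2 ^ Fintype.card X * (2 ^ #I * 4 ^ 2 ^ #I) ^ Fintype.card Y := by
    rw [Nat.card_prod, Nat.card_fun, Nat.card_fun, Nat.card_prod, Nat.card_fun, Nat.card_fun,
      hD.four, Nat.card_zmod, Nat.card_eq_fintype_card (α := X), Nat.card_eq_fintype_card (α := Y),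
      Nat.card_eq_fintype_card (α := {i // i ∈ I}),
      Nat.card_eq_fintype_card (α := {U // U ∈ I.powerset}), Fintype.card_coe, Fintype.card_coe,
      Finset.card_powerset]
  rw [← hcard, Subgroup.index]
  apply Nat.card_le_card_of_injective (fun Q : G ⧸ H => φ (Quotient.out Q)⁻¹)
  intro A B hAB
  have h := key _ _ hAB
  rw [inv_inv] at h
  have h4 : (QuotientGroup.mk (Quotient.out A) : G ⧸ H) = QuotientGroup.mk (Quotient.out B) :=
    QuotientGroup.eq.mpr h
  rwa [QuotientGroup.out_eq', QuotientGroup.out_eq'] at h4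

end Pool.Agent.MP72S
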