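import Pool.Agent.Lib.MP_72e2e6_nt.Sm.Br.Spec
import Pool.Agent.Lib.MP_72e2e6_nt.Sm.H.Fin
import Pool.Agent.Lib.MP_72e2e6_nt.Sm.Stmt

/-!
# MP_72e2e6_nt, `Sm/Y`: the uniform version (no condition on the last degree)

The subgroups to which Stepanov's bound is applied have bounded index and are unramified outside
a set `A` of at most `B` places (fixed places and places of ONE grid). With the effective form
`S_SplE` of the bound (block `Sm/X`) the last degree only has to be the largest one. Modules: file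
`Sm/Y/<Name>.lean` with `theorem t<Name> : .. → S_<Name>` (used statements in the order of the docstring),
namespace `Pool.Agent.MP72S` (first part) or `Pool.Agent.MP72S.HD` (second part).
-/

namespace Pool.Agent.MP72S

open Finset
open Pool.Agent.Lib.MP_72e2e6_nt.Sm.Cnt (vtx Corner CodingData main_ineq)

section

variable {G N P : Type} [Group G] [TopologicalSpace G] [AddCommGroup N] [DistribMulAction G N]
  (D : Dat G N P)

/-- Stepanov's bound for the set `T` of primes and the subgroups of index at most `B` which are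
unramified outside `A`. -/
def Dat.Few (Gb : Subgroup G) (A : Finset P) (B : ℕ) (T : Finset P) : Prop :=
  ∀ H : Subgroup G, H.Normal → IsOpen (H : Set G) → H.index ≤ B → (∀ v, v ∉ A → D.tau v ∈ H) →
    ({c ∈ T | D.phi c ∈ H} : Set P).ncard * H.relIndex Gb ≤ 2 * #T

/-- Stepanov's bound for the primes `S b` and the subgroups of index at most `B` which are unramified
outside at most `B` places, each of them in `D.S` or in some `S i`, `i ≠ b`. -/
def Dat.Spb {ι : Type} (Gb : Subgroup G) (B : ℕ) (b : ι) (S : ι → Finset P) : Prop :=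
  ∀ A : Finset P, #A ≤ B → (∀ v ∈ A, v ∈ D.S ∨ ∃ i, i ≠ b ∧ v ∈ S i) → D.Few Gb A B (S b)

end

/-- Module `PvE` (variant of `Pv`, `Br/Pv.lean`: copy the proof). The hypothesis on `A` is weaker: `D.S ⊆ A`,
`A` contains the `e k` and the `R j`, `j ∉ I ∪ {b}`. PROOF. In the proof of `Pv` the hypothesis `S i ⊆ A` is used
only to see that `g.cf c₀ p i` and `g.cf c₀ x i` are in `A` for `i ≠ b`; by `Cf` they are some `e k` or `R i`. -/
def S_PvE : Prop :=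
  ∀ {G N P ι : Type} [Group G] [TopologicalSpace G] [IsTopologicalGroup G] [AddCommGroup N]
    [DistribMulAction G N] [Fintype ι] [DecidableEq ι] {M : ℕ} (D : Dat G N P), Ax D → Ax2 D →
    ∀ (S : ι → Finset P) (g : Grd P ι M) (s : D.ST ι), D.Gok S g → ∀ (K : ℕ)
    (Lam : AddSubgroup (D.J ι → N)) (f : D.J ι → N) (γ : (D.J ι → N) → ZMod 2) (t' : N),
    D.Cho g.I g.b K s Lam f γ t' → (∀ c p, D.Gp S g s c p → D.Dk (g.cf c p) 1 = Lam) →
    ∀ τ : D.J ι → N, 2 ^ (K - 1) • τ = f → ∀ (c₀ : P) (x p : {i // i ∈ g.I} → Fin M),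
    (∀ i, x i < p i) → (∀ w, D.Lp S g K s f τ c₀ (vtx x p w)) → ∀ A : Finset P, D.S ⊆ A →
    (∀ k, g.e k ∈ A) → (∀ j, j ∉ g.I → j ≠ g.b → g.R j ∈ A) →
    ∃ F : Finset ι → G → N,
      Sys g.I (fun i σ => if i ∈ g.I then D.ch (g.cf c₀ p i) σ + D.ch (g.cf c₀ x i) σ else 0) F ∧
      (∀ U ⊆ g.I, IsLocallyConstant (F U) ∧ ∀ v, v ∉ A → F U (D.tau v) = 0) ∧
      (∀ U, ¬ U ⊆ g.I → F U = 0) ∧ (∀ σ, F ∅ σ = D.coc (g.cf c₀ p) f σ) ∧
      ∀ c, (∀ w, D.Lp S g K s f τ c (vtx x p w)) →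
        D.phi c ∈ sysK g.I (fun i σ => if i ∈ g.I then D.ch (g.cf c₀ p i) σ +
          D.ch (g.cf c₀ x i) σ else 0) F ∧ D.e (F g.I (D.phi c)) t' = 0

/-- Module `IdxE` (the index of the subgroups of the bridge, 80 lines). `X` is a finite type of characters, `Y` a
finite type of systems. PROOF. Let `V₂` be the subtype of the elements of `N` of order two (four elements), `Z` the
finite type `(X → ZMod 2) × (Y → (I → ZMod 2) × (I.powerset → V₂))` (cardinality at most the bound) and `φ : G → Z`,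
`φ h = (q x h, (c y i h, F y U h))`. If `φ g = φ h` then `g h⁻¹ ∈ H`: `q x (g h⁻¹) = 0`, `c y i (g h⁻¹) = 0` (additive), and
`F y U (g) = F y U ((g h⁻¹) h) = F y U (g h⁻¹) + F y U h` by `Sys.mul` (only `W = ∅` as all `c y i (g h⁻¹)` vanish, `i ∈ U ⊆ I`), so
`F y U (g h⁻¹) = 0` for all `U ⊆ I`, and `D.e 0 t' = 0`. So the map `G ⧸ H → Z`, `g H ↦ φ (g'⁻¹)` (`g'` a representative) is
injective, and `H.index ≤ #Z`. -/
def S_IdxE : Prop :=
  ∀ {G N P ι X Y : Type} [Group G] [TopologicalSpace G] [AddCommGroup N] [DistribMulAction G N]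
    [DecidableEq ι] [Fintype X] [Fintype Y] (D : Dat G N P), Ax D →
    ∀ (I : Finset ι) (t' : N) (q : X → G → ZMod 2) (c : Y → ι → G → ZMod 2)
    (F : Y → Finset ι → G → N), 2 • t' = 0 → (∀ x σ τ, q x (σ * τ) = q x σ + q x τ) →
    (∀ y, Sys I (c y) (F y)) → ∀ H : Subgroup G,
    (∀ h, (∀ x, q x h = 0) → (∀ y, h ∈ sysK I (c y) (F y) ∧ D.e (F y I h) t' = 0) → h ∈ H) →
    H.index ≤ 2 ^ Fintype.card X * (2 ^ #I * 4 ^ 2 ^ #I) ^ Fintype.card Y

/-- The index bound. -/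
def idB (K M : ℕ) : ℕ := 2 ^ (K * M * M) * (2 ^ K * 4 ^ 2 ^ K) ^ M ^ K

/-- Module `ClsE` (variant of `Cls`, `Br/Cls.lean`: copy the proof). Uses the same statements as `Cls` with `S_PvE` in
place of `S_Pv`, and `S_IdxE`. PROOF. As for `Cls` with `PvE`; the set `A` is only required to contain `D.S`, the `e k` and the
`R j`; in place of `H ∈ HH ι A` one shows: `H` is normal, open, `H.index ≤ idB K M` (by `IdxE` with the pairs
`a : (I × Fin M) × Fin M` of the set `Q` as `X` (take `q a = ch (e a.1) + ch (e (a.1.1, a.2))` if `a` satisfies the condition and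
`0` otherwise, or the subtype; `K M M` elements at most) and `Y = α` (the pivots, at most `M ^ K`)) and `tau v ∈ H` for
`v ∉ A` (`ch_tau'` for `Q` and the `cc` (note `v ≠ inf` as `inf ∈ D.S ⊆ A`), and `F U (tau v) = 0` for all `U ⊆ I` by `PvE`; `D.e 0 t' = 0`). -/
def S_ClsE : Prop :=
  ∀ {G N P ι : Type} [Group G] [TopologicalSpace G] [IsTopologicalGroup G] [AddCommGroup N]
    [DistribMulAction G N] [Fintype ι] [DecidableEq ι] {M : ℕ} (D : Dat G N P)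
    (Gb : Subgroup G), Ax D → Ax2 D → (∀ v, D.tau v ∈ Gb) → (∀ σ τ : G, σ * τ * σ⁻¹ * τ⁻¹ ∈ Gb) →
    ∀ (S : ι → Finset P) (g : Grd P ι M) (s : D.ST ι), D.Gok S g → ∀ (K : ℕ)
    (Lam : AddSubgroup (D.J ι → N)) (f : D.J ι → N) (γ : (D.J ι → N) → ZMod 2) (t' : N),
    D.Cho g.I g.b K s Lam f γ t' → (∀ c p, D.Gp S g s c p → D.Dk (g.cf c p) 1 = Lam) →
    (∀ c p, D.Zp S g K s c p → ∃ σ, D.e (D.coc (g.cf c p) f σ) t' = 1) →
    ∀ A : Finset P, D.S ⊆ A → (∀ k, g.e k ∈ A) → (∀ j, j ∉ g.I → j ≠ g.b → g.R j ∈ A) →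
    D.Few Gb A (idB K M) (S g.b) →
    ∀ c₀ : P, ({c ∈ S g.b | D.cod S g s c = D.cod S g s c₀ ∧
        ∀ τ, 2 ^ (K - 1) • τ = f → D.Lp S g K s f τ c = D.Lp S g K s f τ c₀} : Set P).ncard *
      2 ^ Nat.card {p : {i // i ∈ g.I} → Fin M //
        ∃ τ : D.J ι → N, 2 ^ (K - 1) • τ = f ∧ Corner (D.Lp S g K s f τ c₀) p} *
      (2 ^ (K * M) * ((K * M + 1) * 2)) ≤ 2 ^ (2 * K + 2) * (K * M + 1) * #(S g.b)

/-- Module `BrgE` (variant of `Asm`, `Br/Asm.lean`: copy the proof). Uses the same statements as `Asm` without `S_Hfin`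
and with `S_ClsE` in place of `S_Cls`: `S_Cf → S_Dom → S_Hg → S_Hz → S_Hl → S_ClsE → S_Chs → S_Spt → S_Sy1 → S_Bas → S_Dk1 → S_BrgE`.
PROOF. As for `Asm`; `M` from `main_ineq` does not depend on `b`; `B` is larger than `N₁`, `idB K M` and
`#D.S + K M + card ι`. For a grid with the values `R j ∈ S j` (`j ∉ I`, `j ≠ b`) take `A = D.S ∪ (image of e) ∪ (image of R on
the complement of I ∪ {b})`; its elements are in `D.S` or in some `S i`, `i ≠ b`, and `D.Few` for `idB K M` follows from `Spb` for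
`B ≥ idB K M` (`H.index ≤ idB K M ≤ B`). -/
def S_BrgE : Prop :=
  ∀ {G N P ι : Type} [Group G] [TopologicalSpace G] [IsTopologicalGroup G] [AddCommGroup N]
    [DistribMulAction G N] [Fintype ι] [DecidableEq ι] (D : Dat G N P) (Gb : Subgroup G),
    Ax D → Ax2 D → (∀ v, D.tau v ∈ Gb) → (∀ σ τ : G, σ * τ * σ⁻¹ * τ⁻¹ ∈ Gb) →
    ∀ K : ℕ, 1 ≤ K → ∀ ε : ℝ, 0 < ε → ∃ B : ℕ, ∀ (b : ι) (S : ι → Finset P),
    (∀ i, i ≠ b → B ≤ #(S i)) → (∀ i, i ≠ b → ∀ v ∈ S i, v ∉ D.S) → (∀ z ∈ tup S, D.Ok z) →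
    D.Spb Gb B b S →
    ∀ s, 16 ≤ Nat.card s.2.1 → (∀ z ∈ tup S, D.IsSt K z s → D.Pat (D.Dk z 1) b K) →
      ∀ f ∈ s.2.1, f ∉ D.T ι →
        ({z ∈ tup S | D.IsSt K z s ∧ f ∈ D.Dk z (K + 1)}.ncard : ℝ) ≤
          15 / 16 * ({z ∈ tup S | D.IsSt K z s}.ncard : ℝ) + ε * ∏ i, (#(S i) : ℝ)

/-- Module `StpE` (variant of `Stp`, `H/Stp.lean`: copy the proof). `S_Dk1 → S_Sy1 → S_StF → S_BrgE → S_StpE`. -/
def S_StpE : Prop :=
  ∀ {G N P ι : Type} [Group G] [TopologicalSpace G] [IsTopologicalGroup G] [AddCommGroup N]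
    [DistribMulAction G N] [Fintype ι] [DecidableEq ι] (D : Dat G N P) (Gb : Subgroup G),
    Ax D → Ax2 D → (∀ v, D.tau v ∈ Gb) → (∀ σ τ : G, σ * τ * σ⁻¹ * τ⁻¹ ∈ Gb) →
    ∀ (K L₀ : ℕ), 1 ≤ K → K ≤ L₀ → ∀ δ : ℝ, 0 < δ → ∃ B : ℕ, ∀ (b : ι) (S : ι → Finset P),
    (∀ i, i ≠ b → B ≤ #(S i)) → (∀ i, i ≠ b → ∀ v ∈ S i, v ∉ D.S) → (∀ z ∈ tup S, D.Ok z) →
    D.Spb Gb B b S →
      (∑ᶠ z ∈ {z ∈ tup S | D.Pat (D.Dk z 1) b L₀ ∧ 16 ≤ Nat.card (D.Dk z (K + 1))},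
          (Nat.card (D.Dk z (K + 1)) : ℝ)) ≤
        61 / 64 * (∑ᶠ z ∈ {z ∈ tup S | D.Pat (D.Dk z 1) b L₀ ∧ 16 ≤ Nat.card (D.Dk z K)},
          (Nat.card (D.Dk z K) : ℝ)) + δ * ∏ i, (#(S i) : ℝ)

/-- The arithmetic input for the uniform version (compare `Lvl`). -/
structure LvlE {G N P : Type} [Group G] [TopologicalSpace G] [AddCommGroup N]
    [DistribMulAction G N] (D : Dat G N P) (Gb : Subgroup G) (Irr : ℕ → Finset P)
    (Adm : ∀ r : ℕ, (Fin (r + 1) → ℕ) → Prop) : Prop where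
  tau : ∀ v, D.tau v ∈ Gb
  com : ∀ σ τ, σ * τ * σ⁻¹ * τ⁻¹ ∈ Gb
  nS : ∀ n, ∀ v ∈ Irr n, v ∉ D.S
  inf : ∀ m : ℕ, ∃ n₀, ∀ n, n₀ ≤ n → m ≤ #(Irr n)
  ok : ∀ r n, Adm r n → ∀ z ∈ tup fun i => Irr (n i), D.Ok z
  spl : ∀ r B : ℕ, ∃ N₀, ∀ n : Fin (r + 1) → ℕ, (∀ i, N₀ ≤ n i) → (∀ i, n i ≤ n (Fin.last r)) →
    D.Spb Gb B (Fin.last r) fun i => Irr (n i)
  g1 : ∃ C : ℝ, ∀ r, ∃ N₀, ∀ n, Adm r n → (∀ i, N₀ ≤ n i) →
    (∑ᶠ z ∈ tup fun i => Irr (n i), (Nat.card (D.Dk z 1) : ℝ)) ≤ C * ∏ i, (#(Irr (n i)) : ℝ)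
  g2 : ∀ (L₀ : ℕ) (ε : ℝ), 0 < ε → ∃ r₀, ∀ r, r₀ ≤ r → ∃ N₀, ∀ n, Adm r n → (∀ i, N₀ ≤ n i) →
    (∑ᶠ z ∈ {z ∈ tup fun i => Irr (n i) | ¬ D.Pat (D.Dk z 1) (Fin.last r) L₀},
      (Nat.card (D.Dk z 1) : ℝ)) ≤ ε * ∏ i, (#(Irr (n i)) : ℝ)
  g3 : ∀ r n, Adm r n → ∀ z ∈ tup fun i => Irr (n i), ∃ s : ℕ, Nat.card (D.Dk z 1) = 4 ^ s

/-- Module `EndE` (variant of `End`, `H/End.lean`: copy the proof; the same used statements with `S_StpE` in place of
`S_Stp`). PROOF. As for `End`; `N₁` is larger than the bounds of `g1`, `g2`, of `inf` for the `B_K` of `StpE`, `K = 1, .., L`, of `spl` for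
`r` and the `B_K`, and of `Inj2`. -/
def S_EndE : Prop :=
  ∀ {G N P R : Type} [Group G] [TopologicalSpace G] [IsTopologicalGroup G] [AddCommGroup N]
    [DistribMulAction G N] [AddCommGroup R] [DistribMulAction G R]
    (D : Dat G N P) (E : ℕ → N → N → R) (hf : R) (Gb : Subgroup G) (Irr : ℕ → Finset P)
    (Adm : ∀ r : ℕ, (Fin (r + 1) → ℕ) → Prop), Ax D → Ax2 D → Ax3 D E hf →
    LvlE D Gb Irr Adm → ∀ ε : ℝ, 0 < ε → ∃ L, 1 ≤ L ∧ ∃ r₀, ∀ r, r₀ ≤ r → ∃ N₁ : ℕ,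
    ∀ n : Fin (r + 1) → ℕ, (∀ i, N₁ ≤ n i) → (∀ i, n i ≤ n (Fin.last r)) → Adm r n →
    (1 - 4 * ε) * ∏ i, (#(Irr (n i)) : ℝ) ≤
      ({z ∈ tup fun i => Irr (n i) | D.Dk z L = D.T (Fin (r + 1))}.ncard : ℝ)

end Pool.Agent.MP72S

namespace Pool.Agent.MP72S.HD

open Polynomial Finset Pool.Agent.MP72W Pool.Agent.MP72S.D

/-- Target of block `Sm/X` (helper62): the effective form of Stepanov's bound. -/
def S_SplE : Prop :=
  ∀ (F : Type) [Field F] [Finite F], (2 : F) ≠ 0 → ∀ A : Pl F → Lcd F, LDok F A → ∀ g₀ : ℕ,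
    ∃ C : ℕ, ∀ H : Subgroup (GQ F), H.Normal → IsOpen (H : Set (GQ F)) → H.index ≤ g₀ →
    ∀ T : Finset (Pl F), (∀ w, w ∉ T → (A w).rQ (A w).t ∈ H) →
    ∀ n, (C * (1 + ∑ w ∈ T, dgP w.o)) ^ C ≤ Nat.card F ^ n →
      {w ∈ SF.Irs F n | (A w).rQ (A w).f ∈ H}.ncard * H.relIndex (SF.Gb F) ≤
        2 * (SF.Irs F n).ncard

/-- Module `LvE` (variant of `Lv`, `H/Lv.lean`: copy the proof; the same used statements with `S_SplE` in place of
`SF.S_Spl`). PROOF. `spl`: let `C` be from `S_SplE` for `g₀ = B`. For `A` with `#A ≤ B` and elements in `S` or in some `irr F S (n i)`,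
`n i ≤ m = n (last)`, we have `∑_{w ∈ A} dgP w.o ≤ ∑_{w ∈ S} dgP w.o + B m` (`dgP w.o = n i` for `w ∈ irr F S (n i)`), and
`(C (1 + s + B m)) ^ C ≤ q ^ m` for all large `m` (`tendsto_pow_const_div_const_pow_of_one_lt` or similar). For `m ≥ n₁` `irr F S m` is
`Irs F m`. -/
def S_LvE : Prop :=
  ∀ (F : Type) [Field F] [Finite F] (a : Fin 3 → F[X]) (d : F[X]) (u : F) (S : Finset (Pl F))
    (A : Pl F → Lcd F), Hy a d → (¬ ∃ b, b ^ 2 = u) → Sok a d S → LDok F A →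
    LvlE (DD F a d u S A) (SF.Gb F) (irr F S) (Adm a d)

/-- Module `FinE` (variant of `Fin`, `H/FinT.lean`: the same used statements with `S_EndE`, `S_LvE` in place of `S_End`,
`S_Lv`). PROOF. (1) For `n` with `n i ≤ n (last)` as for `Fin`. (2) For general `n` let `n j` be the largest degree and `σ` the transposition
of `j` and `last`; `R ↦ R ∘ σ` is a bijection between `tps F n` and `tps F (n ∘ σ)` and between the sets on the right, as
`∏ R (σ k) = ∏ R k` and `∑ n (σ i) = ∑ n i`. -/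
def S_FinE : Prop :=
  ∀ (F : Type) [Field F] [Finite F] (a : Fin 3 → F[X]) (d : F[X]), Hy a d → ∀ ε : ℝ, 0 < ε →
    ∃ r₀ : ℕ, ∀ r, r₀ ≤ r → ∃ N₁ : ℕ, ∀ n : Fin (r + 1) → ℕ, (∀ i, N₁ ≤ n i) →
    Odd (d.natDegree + ∑ i, n i + mxd a) →
    (tps F n).Finite ∧
    (1 - ε) * ((tps F n).ncard : ℝ) ≤
      ({R ∈ tps F n |
        Finite (C.Wa fun i => algebraMap F[X] (RatFunc F) ((d * ∏ k, R k) * a i)).toAffine.Point ∧
        ShaTwoFin (C.Wa fun i => algebraMap F[X] (RatFunc F) ((d * ∏ k, R k) * a i))}.ncard : ℝ)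

end Pool.Agent.MP72S.HD

/-! ### The literal statement and the counting corollary -/

namespace Pool.Agent.MP72T

open Polynomial WeierstrassCurve Finset

/-- The twist by `D` has finitely many rational points and a finite `2`-primary part of the Tate-Shafarevich
group. -/
def Fin0 {F : Type} [Field F] (a : Fin 3 → F[X]) (D : F[X]) : Prop :=
  Finite (twd a D).toAffine.Point ∧ MP72Y.ShaTwoFin (twd a D) (SeparableClosure (RatFunc F))

/-- The monic squarefree polynomials of degree `n` with exactly `r` irreducible factors, prime to `B`. -/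
def sqp (F : Type) [Field F] (B : F[X]) (r n : ℕ) : Set F[X] :=
  {M | M.Monic ∧ M.natDegree = n ∧ IsCoprime M B ∧
    ∃ R : Fin r → F[X], (∀ i, (R i).Monic ∧ Irreducible (R i)) ∧ Function.Injective R ∧ M = ∏ i, R i}

/-- (A) all degrees large. -/
def ThmA : Prop :=
  ∀ (F : Type) [Field F] [Finite F] (a : Fin 3 → F[X]), Cur a → ∀ d : F[X], Tam a d → ∀ ε : ℝ, 0 < ε →
    ∃ r₀ : ℕ, ∀ r, r₀ ≤ r → ∃ N₁ : ℕ, ∀ n : Fin (r + 1) → ℕ, (∀ i, N₁ ≤ n i) →
    Odd (d.natDegree + ∑ i, n i + mxd a) →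
    (tps F n).Finite ∧
    (1 - ε) * ((tps F n).ncard : ℝ) ≤ ({R ∈ tps F n | Fin0 a (d * ∏ k, R k)}.ncard : ℝ)

/-- Module `OutE` (60 lines, model `Sm/Out.lean`). `HD.S_FinE → ThmA`. -/
def S_OutE : Prop := MP72S.HD.S_FinE → ThmA

/-- (B) squarefree twists with a fixed number of prime factors. -/
def ThmB : Prop :=
  ∀ (F : Type) [Field F] [Finite F] (a : Fin 3 → F[X]), Cur a → ∀ d : F[X], Tam a d → ∀ ε : ℝ, 0 < ε →
    ∃ r₀ : ℕ, ∀ r, r₀ ≤ r → ∃ n₀ : ℕ, ∀ n, n₀ ≤ n → Odd (d.natDegree + n + mxd a) →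
    (sqp F (d * ((a 0 - a 1) * (a 0 - a 2) * (a 1 - a 2))) r n).Nonempty ∧
    (1 - ε) * ((sqp F (d * ((a 0 - a 1) * (a 0 - a 2) * (a 1 - a 2))) r n).ncard : ℝ) ≤
      ({M ∈ sqp F (d * ((a 0 - a 1) * (a 0 - a 2) * (a 1 - a 2))) r n |
        Fin0 a (d * M)}.ncard : ℝ)

/-- The number of the monic irreducible polynomials of degree `n`. -/
noncomputable def piF (F : Type) [Field F] (n : ℕ) : ℕ :=
  {R : F[X] | R.Monic ∧ Irreducible R ∧ R.natDegree = n}.ncard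

/-- Module `CntA` (the number of irreducible polynomials, 80 lines; Mathlib may have a part of it).
`SF.S_Irc → D.S_Lo → S_CntA`. PROOF. `SF.S_Irc` (statement in `Sm/F/Spec.lean`; `D.S_Lo`, `Sm/D/Spec.lean`, gives the `A` which it
needs) gives finiteness and the lower bound (`R ↦ some ⟨R, _⟩` is a bijection with `SF.Irs F n`). Upper bound: the `n` roots of a
monic irreducible `R` of degree `n` in an algebraic closure are different (finite fields are perfect) and are roots of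
`X ^ (q ^ n) - X` (`FiniteField`, or: `F(root)` has `q ^ n` elements), and different `R` have disjoint sets of roots. -/
def S_CntA : Prop :=
  ∀ (F : Type) [Field F] [Finite F], (2 : F) ≠ 0 →
    (∀ n, {R : F[X] | R.Monic ∧ Irreducible R ∧ R.natDegree = n}.Finite) ∧
    (∀ n : ℕ, 1 ≤ n → (n : ℝ) * (piF F n : ℝ) ≤ (Nat.card F : ℝ) ^ n) ∧
    ∃ n₀ : ℕ, ∀ n : ℕ, n₀ ≤ n → 3 * (Nat.card F : ℝ) ^ n ≤ 4 * ((n : ℝ) * (piF F n : ℝ))

/-- `Wn m r n = ∑ ∏ 1 / n_i` over the `r`-tuples with `n_i ≥ max (m, 1)` and sum `n` (recursively). -/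
noncomputable def Wn (m : ℕ) : ℕ → ℕ → ℝ
  | 0, n => if n = 0 then 1 else 0
  | r + 1, n => ∑ k ∈ (Finset.range (n + 1)).filter fun k => m ≤ k ∧ 1 ≤ k,
      (1 / (k : ℝ)) * Wn m r (n - k)

/-- Module `CntW` (120 lines). The weights. PROOF. `H_n = ∑_{k=1}^n 1 / k`. (1) `Wn 1 (r+1) n ≤ 2 ^ r H_n ^ r / n` for `n ≥ 1` by
induction on `r`: for `r ≥ 1` `Wn 1 r 0 = 0`, and `∑_{k=1}^{n-1} 1 / (k (n - k)) = (1 / n) ∑ (1 / k + 1 / (n - k)) ≤ 2 H_n / n`. (2) For every `r`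
there are `c > 0` and `n₁` with `Wn m (r+1) n ≥ c H_n ^ r / n` for `n ≥ n₁`: for `r = 0` it is `1 / n` (`n ≥ m`); step: for `n ≥ 2 n₁`,
`n ≥ 4 m` restrict the sum to `m ≤ k ≤ n / 2`: `Wn m (r+2) n ≥ ∑_{m ≤ k ≤ n/2} (1 / k) c H_{n/2} ^ r / n`, and `H_{n/2} ≥ H_n - 1 ≥ H_n / 2`,
`∑_{m ≤ k ≤ n/2} 1 / k ≥ H_n - 1 - H_m ≥ H_n / 2` for large `n` (`H_n → ∞`: `Real.tendsto_sum_range_one_div_nat_succ_atTop`). (3) So for `j ≤ m` and large
`n` the quotient of `Wn 1 (r+1) (n-j) ≤ 2 ^ r H_n ^ r / (n - j) ≤ 2 ^ (r+1) H_n ^ r / n` and `Wn m (r+2) n ≥ c H_n ^ (r+1) / n` is at most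
`2 ^ (r+1) / (c H_n) ≤ δ`. -/
def S_CntW : Prop :=
  ∀ (r m : ℕ) (δ : ℝ), 0 < δ → 1 ≤ m → ∃ n₀, ∀ n, n₀ ≤ n → 0 < Wn m (r + 2) n ∧ ∀ j, j ≤ m →
    Wn 1 (r + 1) (n - j) ≤ δ * Wn m (r + 2) n

/-- The tuples of monic irreducible polynomials prime to `B` with the sum of the degrees `n`. -/
def tpn (F : Type) [Field F] (B : F[X]) (r n : ℕ) : Set (Fin r → F[X]) :=
  {R | (∀ i, (R i).Monic ∧ Irreducible (R i) ∧ IsCoprime (R i) B) ∧ ∑ i, (R i).natDegree = n}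

/-- Module `Cor1` (100 lines). Products and tuples. PROOF. `R ↦ ∏ R i` maps the set on the right onto the set on the left; the fibre
of `M = ∏ R i` is the set of the `R ∘ σ`, `σ` a permutation (`R'` with the same product: the multisets of the values are the
normalized factors of `M`, so they agree, and injective tuples with the same set of values differ by a permutation); it has `r!`
elements. Finiteness: there are finitely many polynomials of degree at most `n` over a finite field. -/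
def S_Cor1 : Prop :=
  ∀ (F : Type) [Field F] [Finite F] (B : F[X]) (r n : ℕ) (Q : F[X] → Prop),
    (sqp F B r n).Finite ∧ (tpn F B r n).Finite ∧
    r.factorial * {M ∈ sqp F B r n | Q M}.ncard =
      {R ∈ tpn F B r n | Function.Injective R ∧ Q (∏ i, R i)}.ncard

/-- Module `Cor2` (150 lines, uses `S_CntA`, `S_CntW`). Few tuples have a small degree or are not injective. PROOF. `s = r + 2` is
the length. `q = #F`. (1) By induction on the length the number of the tuples of monic irreducible polynomials of length `l` with degrees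
`≥ m` and sum `n` is at most `q ^ n Wn m l n` (`CntA`, `m ≥ 1`), and for `m ≥ n₀ (CntA)` at least `(3/4) ^ l q ^ n Wn m l n`. (2) Let
`m = max (m₀, n₀, natDegree B + 1, M₁)` where `M₁` is such that `s ^ 2 / π(k) ≤ δ / 4` for `k ≥ M₁`; irreducible polynomials of degree `≥ m` are
prime to `B ≠ 0`. Tuples in `tpn` with some degree `j < m`: at most `s ∑_{1 ≤ j < m} π(j) q ^ (n-j) Wn 1 (r+1) (n-j) ≤ s m q ^ m · q ^ n δ' Wn m (r+2) n`
(`CntW` for `δ'`). Tuples with all degrees `≥ m` and `R i = R j` for some `i < j`: for fixed degrees at most `∏ π(n_i) / π(n_i)`, so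
in total at most `(δ/4) #(tpn)`. (3) The number of all tuples in `tpn` is at least `(3/4) ^ s q ^ n Wn m s n > 0`; choose `δ'` small. -/
def S_Cor2 : Prop :=
  ∀ (F : Type) [Field F] [Finite F], (2 : F) ≠ 0 → ∀ (B : F[X]), B ≠ 0 → ∀ (r m₀ : ℕ) (δ : ℝ), 0 < δ →
    ∃ n₀ : ℕ, ∀ n, n₀ ≤ n → 0 < (tpn F B (r + 2) n).ncard ∧
    ({R ∈ tpn F B (r + 2) n | ¬ (Function.Injective R ∧ ∀ i, m₀ ≤ (R i).natDegree)}.ncard : ℝ) ≤
      δ * ((tpn F B (r + 2) n).ncard : ℝ)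

/-- Module `Cor` (120 lines, uses `S_Cor1`, `S_Cor2`). `ThmA → ThmB`. PROOF. `ε' = ε / 4`. `r₀` from `ThmA` for `ε'`. For `r ≥ r₀ + 2`
(the number of the factors; `r = (r' + 1)`, `r' ≥ r₀`) let `N₁` be from `ThmA` for `r'`, and apply `Cor2` with `m₀ = max (N₁, natDegree B + 1)`,
`δ = ε'`. The tuples in `tpn` with all degrees `≥ m₀` are the disjoint union of the sets `tps F k` over the `k : Fin r → ℕ` with `k i ≥ m₀`, `∑ k i = n`
(irreducible polynomials of degree `> natDegree B` are prime to `B ≠ 0`), so by `ThmA` at most `ε' #(tpn)` of them do not have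
`Fin0 a (d * ∏ R i)`. So the injective tuples in `tpn` with `Fin0` are at least `(1 - 2 ε') #(tpn)`, and `Cor1` for `Q = Fin0 a (d * ·)` and
for `Q = True` gives the claim (`#(sqp) r! ≤ #(tpn)`). `Nonempty`: `Cor1` for `Q = True` and `Cor2` with `δ = 1 / 2`. `(2 : F) ≠ 0` by `Cur.q4`. -/
def S_Cor : Prop := ThmA → ThmB

end Pool.Agent.MP72T
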