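import Pool.Agent.Lib.MP_72e2e6_nt.Sm.Y.Spec

namespace Pool.Agent.MP72S

open Finset
open Pool.Agent.Lib.MP_72e2e6_nt.Sm.Cnt (vtx vtx_top Corner CodingData main_ineq)

private theorem ClsE_z2 (a : ZMod 2) : a + a = 0 := by
  revert a
  decide

private theorem ClsE_one {G : Type} [Group G] {f : G → ZMod 2}
    (hf : ∀ σ τ, f (σ * τ) = f σ + f τ) : f 1 = 0 := by
  have h := hf 1 1
  rw [mul_one] at h
  exact left_eq_add.mp h

private theorem ClsE_com {G : Type} [Group G] {f : G → ZMod 2}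
    (hf : ∀ σ τ, f (σ * τ) = f σ + f τ) (a b : G) : f (a * b * a⁻¹ * b⁻¹) = 0 := by
  have h1 : ∀ x, f x⁻¹ = f x := by
    intro x
    have h := hf x x⁻¹
    rw [mul_inv_cancel, ClsE_one hf] at h
    have h2 := ClsE_z2 (f x)
    have h3 : f x + f x⁻¹ = f x + f x := by rw [← h, h2]
    exact add_left_cancel h3
  rw [hf, hf, hf, h1, h1]
  have h4 := ClsE_z2 (f a)
  have h5 := ClsE_z2 (f b)
  calc f a + f b + f a + f b = (f a + f a) + (f b + f b) := by ring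
    _ = 0 := by rw [h4, h5, add_zero]

private theorem ClsE_itc {G ι : Type} [Group G] {f : G → ZMod 2}
    (hf : ∀ σ τ, f (σ * τ) = f σ + f τ) (g : ι → G) (l : List ι) (hl : l ≠ []) (σ : G) :
    f (itc g l σ) = 0 := by
  cases l with
  | nil => exact absurd rfl hl
  | cons i l => exact ClsE_com hf _ _

private theorem ClsE_itc2 {G ι : Type} [Group G] (Gb : Subgroup G)
    (h : ∀ σ τ : G, σ * τ * σ⁻¹ * τ⁻¹ ∈ Gb) (g : ι → G) (l : List ι) (hl : l ≠ []) (σ : G) :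
    itc g l σ ∈ Gb := by
  cases l with
  | nil => exact absurd rfl hl
  | cons i l => exact h _ _

private theorem ClsE_e0 {G N P : Type} [Group G] [TopologicalSpace G] [AddCommGroup N]
    [DistribMulAction G N] {D : Dat G N P} (hD : Ax D) {t : N} (ht : 2 • t = 0) :
    D.e 0 t = 0 := by
  have h := hD.e_add 0 0 t (smul_zero _) (smul_zero _) ht
  rw [add_zero] at h
  exact left_eq_add.mp h

private theorem ClsE_count {P : Type} {G : Type} [Group G] (Sb : Finset P) (C1 C2 : Set P)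
    (h12 : C1 ⊆ C2) (h2 : C2 ⊆ (Sb : Set P)) (Gb K₀ H : Subgroup G) (K M n : ℕ)
    (hrel : H.relIndex Gb = K₀.relIndex Gb * 2 ^ n)
    (hrat : 2 ^ (K * M) ≤ 2 ^ (K * 2) * K₀.relIndex Gb)
    (hH : C2.ncard * H.relIndex Gb ≤ 2 * #Sb) :
    C1.ncard * 2 ^ n * (2 ^ (K * M) * ((K * M + 1) * 2)) ≤ 2 ^ (2 * K + 2) * (K * M + 1) * #Sb := by
  have h1 : C1.ncard ≤ C2.ncard := Set.ncard_le_ncard h12 (Sb.finite_toSet.subset h2)
  calc C1.ncard * 2 ^ n * (2 ^ (K * M) * ((K * M + 1) * 2))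
      ≤ C2.ncard * 2 ^ n * ((2 ^ (K * 2) * K₀.relIndex Gb) * ((K * M + 1) * 2)) := by gcongr
    _ = (C2.ncard * H.relIndex Gb) * (2 ^ (K * 2) * ((K * M + 1) * 2)) := by rw [hrel]; ring
    _ ≤ (2 * #Sb) * (2 ^ (K * 2) * ((K * M + 1) * 2)) := by gcongr
    _ = 2 ^ (2 * K + 2) * (K * M + 1) * #Sb := by ring

theorem tClsE : S_Com → S_Rat → S_Hgr → S_PvE → S_Coe → S_Tai → S_Uq → S_Dk1 → S_Cf → S_IdxE →
    S_ClsE := by
  intro hCom hRat hHgr hPv hCoe hTai hUq hDk1 hCf hIdx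
  intro G N P ι _ _ _ _ _ _ _ M D Gb hD hD2 hGt hGc S g s hg K Lam f γ t' hC hLam hnz A hSA heA hRA
    hFew c₀
  classical
  have hbI : g.b ∉ g.I := hC.hb
  have hIb : ∀ i ∈ g.I, i ≠ g.b := fun i hi h => hbI (h ▸ hi)
  have heS : ∀ k, g.e k ∉ D.S := fun k => hg.nS _ (hIb _ k.1.2) _ (hg.mem k)
  have heinf : ∀ k, g.e k ≠ D.inf := fun k h => heS k (h ▸ hD.infS)
  have hcfI : ∀ (c : P) (q : {i // i ∈ g.I} → Fin M) (i) (hi : i ∈ g.I),
      g.cf c q i = g.e (⟨i, hi⟩, q ⟨i, hi⟩) := fun c q i hi => (hCf g hbI c c q q).2.2.1 i hi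
  have hcfb : ∀ (c : P) (q : {i // i ∈ g.I} → Fin M), g.cf c q g.b = c :=
    fun c q => (hCf g hbI c c q q).2.1
  have hcfR : ∀ (c : P) (q : {i // i ∈ g.I} → Fin M) (j), j ∉ g.I → j ≠ g.b → g.cf c q j = g.R j :=
    fun c q => (hCf g hbI c c q q).2.2.2.1
  have hIne : g.I.Nonempty := by
    rw [← card_pos, hC.cK]
    exact hC.hK
  have hlne : g.I.toList ≠ [] := by
    intro h
    rw [toList_eq_nil] at h
    exact hIne.ne_empty h
  -- the functions
  let cc : ({i // i ∈ g.I} → Fin M) → ({i // i ∈ g.I} → Fin M) → ι → G → ZMod 2 :=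
    fun p x i σ => if i ∈ g.I then D.ch (g.cf c₀ p i) σ + D.ch (g.cf c₀ x i) σ else 0
  -- pivots
  let α := {p : {i // i ∈ g.I} → Fin M //
    ∃ τ : D.J ι → N, 2 ^ (K - 1) • τ = f ∧ Corner (D.Lp S g K s f τ c₀) p}
  have hP1 : ∀ q : α, ∃ (τ : D.J ι → N) (x : {i // i ∈ g.I} → Fin M) (F : Finset ι → G → N),
      2 ^ (K - 1) • τ = f ∧ (∀ i, x i < q.1 i) ∧ (∀ w, D.Lp S g K s f τ c₀ (vtx x q.1 w)) ∧
      Sys g.I (cc q.1 x) F ∧ (∀ U ⊆ g.I, IsLocallyConstant (F U) ∧ ∀ v, v ∉ A → F U (D.tau v) = 0) ∧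
      (∀ U, ¬ U ⊆ g.I → F U = 0) ∧ (∀ σ, F ∅ σ = D.coc (g.cf c₀ q.1) f σ) ∧
      ∀ c, (∀ w, D.Lp S g K s f τ c (vtx x q.1 w)) →
        D.phi c ∈ sysK g.I (cc q.1 x) F ∧ D.e (F g.I (D.phi c)) t' = 0 := by
    intro q
    obtain ⟨τ, hτ, x, hx, hw⟩ := q.2
    obtain ⟨F, h1, h2, h3, h4, h5⟩ := hPv D hD hD2 S g s hg K Lam f γ t' hC hLam τ hτ c₀ x q.1 hx hw
      A hSA heA hRA
    exact ⟨τ, x, F, hτ, hx, hw, h1, h2, h3, h4, h5⟩
  choose τ x F hτ hx hw hSys hFlc hF0 hFe hFc using hP1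
  -- basic facts on pivots
  have hZp : ∀ q : α, D.Zp S g K s c₀ q.1 := by
    intro q
    have := hw q (fun _ => true)
    rw [vtx_top] at this
    exact this.1.1
  have hGp : ∀ q : α, D.Gp S g s c₀ q.1 := fun q => ⟨(hZp q).1, (hZp q).2.1⟩
  have hok : ∀ q : α, D.Ok (g.cf c₀ q.1) := fun q => hg.ok _ (hZp q).1
  have hfZ : ∀ q : α, f ∈ D.Z (g.cf c₀ q.1) ∧ 2 • f = 0 := by
    intro q
    have h1 : f ∈ D.Dk (g.cf c₀ q.1) 1 := by
      rw [hLam _ _ (hGp q)]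
      exact hC.fL
    exact ((hDk1 D hD).1 _ _).mp h1
  -- the set `Q`
  let Q : Finset (G → ZMod 2) :=
    ((univ : Finset (({i // i ∈ g.I} × Fin M) × Fin M)).filter fun a =>
      D.ch (g.e a.1) (D.phi c₀) = D.ch (g.e (a.1.1, a.2)) (D.phi c₀)).image
        fun a σ => D.ch (g.e a.1) σ + D.ch (g.e (a.1.1, a.2)) σ
  have hQ : ∀ q : G → ZMod 2, q ∈ Q ↔ ∃ a : ({i // i ∈ g.I} × Fin M) × Fin M,
      D.ch (g.e a.1) (D.phi c₀) = D.ch (g.e (a.1.1, a.2)) (D.phi c₀) ∧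
      (fun σ => D.ch (g.e a.1) σ + D.ch (g.e (a.1.1, a.2)) σ) = q := by
    intro q
    simp only [Q, mem_image, mem_filter, mem_univ, true_and]
  have hQch : ∀ q ∈ Q, IsCh q := by
    intro q hq
    obtain ⟨a, -, rfl⟩ := (hQ q).mp hq
    have h1 := hD.chc _ (heinf a.1)
    have h2 := hD.chc _ (heinf (a.1.1, a.2))
    refine ⟨h1.lc.comp₂ h2.lc (fun a b => a + b), fun σ τ => ?_⟩
    simp only [h1.mul, h2.mul]
    ring
  -- the point `σ₀`
  obtain ⟨σ₀, hσ₀⟩ : ∃ σ₀, ∀ q : α, D.e (D.coc (g.cf c₀ q.1) f σ₀) t' = 1 := by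
    by_cases hα : Nonempty α
    · obtain ⟨q₀⟩ := hα
      obtain ⟨σ, hσ⟩ := hnz c₀ q₀.1 (hZp q₀)
      refine ⟨σ, fun q => ?_⟩
      rw [hCoe D hD S g s hg c₀ c₀ q.1 q₀.1 (hGp q) (hGp q₀) f (hfZ q).2 (hfZ q).1 (hfZ q₀).1
        hC.fb hC.fI σ]
      exact hσ
    · exact ⟨1, fun q => absurd ⟨q⟩ hα⟩
  let gg : α → ι → G := fun q i => if h : i ∈ g.I then D.tau (g.e (⟨i, h⟩, q.1 ⟨i, h⟩)) else 1
  have hgg : ∀ (q : α) i (hi : i ∈ g.I), gg q i = D.tau (g.e (⟨i, hi⟩, q.1 ⟨i, hi⟩)) := by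
    intro q i hi
    simp only [gg, dif_pos hi]
  have hcc : ∀ (q : α) i (hi : i ∈ g.I) σ, cc q.1 (x q) i σ =
      D.ch (g.e (⟨i, hi⟩, q.1 ⟨i, hi⟩)) σ + D.ch (g.e (⟨i, hi⟩, x q ⟨i, hi⟩)) σ := by
    intro q i hi σ
    simp only [cc, if_pos hi]
    rw [hcfI _ _ i hi, hcfI _ _ i hi]
  -- values of `ch` at `tau`
  have hct : ∀ k k', D.ch (g.e k) (D.tau (g.e k')) = if k = k' then 1 else 0 := by
    intro k k'
    split_ifs with h
    · rw [h]
      exact hD.ch_tau _ (heinf _)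
    · exact hD.ch_tau' _ _ (heinf _) (heinf _) fun h' => h (hg.inj h')
  have hKey : ∀ q q' : α, itc (gg q) g.I.toList σ₀ ∈ sysK g.I (cc q'.1 (x q')) (F q') ∧
      ((∀ i ∈ g.I, cc q'.1 (x q') i (gg q i) = 1) →
        F q' g.I (itc (gg q) g.I.toList σ₀) = F q' ∅ σ₀) ∧
      (¬ (∀ i ∈ g.I, cc q'.1 (x q') i (gg q i) = 1) →
        F q' g.I (itc (gg q) g.I.toList σ₀) = 0) := by
    intro q q'
    have hh := hCom g.I (cc q'.1 (x q')) (F q') (hSys q') (gg q)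
    suffices h : (∀ i ∈ g.I, ∀ j ∈ g.I, j ≠ i → cc q'.1 (x q') j (gg q i) = 0) ∧
        ∀ i ∈ g.I, F q' ∅ (gg q i) = 0 by
      obtain ⟨h1, h2⟩ := hh h.1 h.2 g.I.toList g.I.nodup_toList (toList_toFinset _) hlne σ₀
      exact ⟨h1, fun h3 => by rw [h2, if_pos h3], fun h3 => by rw [h2, if_neg h3]⟩
    refine ⟨?_, ?_⟩
    · intro i hi j hj hji
      rw [hcc q' j hj, hgg q i hi, hct, hct, if_neg, if_neg, add_zero]
      · intro h
        exact hji (congrArg (fun k => (k.1 : ι)) h)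
      · intro h
        exact hji (congrArg (fun k => (k.1 : ι)) h)
    · intro i hi
      rw [hFe q', hgg q i hi]
      have hz := Dat.coc_spec (hfZ q').1
      by_cases hr : g.e (⟨i, hi⟩, q.1 ⟨i, hi⟩) ∈ Set.range (D.pl (g.cf c₀ q'.1))
      · obtain ⟨j, hj⟩ := hr
        rcases j with ⟨v, hv⟩ | j
        · exact absurd (show g.e (⟨i, hi⟩, q.1 ⟨i, hi⟩) ∈ D.S by rw [← hj]; exact hv) (heS _)
        · have hj' : g.cf c₀ q'.1 j = g.e (⟨i, hi⟩, q.1 ⟨i, hi⟩) := hj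
          rw [← hj', (hTai D hD _ (hok q')).2.2.2.2.1 j f _ hz]
          by_cases hjI : j ∈ g.I
          · rw [hC.fI j hjI, neg_zero]
          · by_cases hjb : j = g.b
            · rw [hjb, hC.fb, neg_zero]
            · rw [hcfR _ _ j hjI hjb] at hj'
              exact absurd hj'.symm (hg.avd _ j hjI hjb)
      · exact hz.u.ur _ hr
  -- the subgroups
  obtain ⟨K₀, H, hK₀o, hHn, hHo, hK₀m, hHm, hrel⟩ := hHgr D hD Gb g.I t' Q (univ : Finset α)
    (fun q => cc q.1 (x q)) F hC.two hQch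
    (by
      intro q _ i hi
      have h1 := hD.chc _ (heinf (⟨i, hi⟩, q.1 ⟨i, hi⟩))
      have h2 := hD.chc _ (heinf (⟨i, hi⟩, x q ⟨i, hi⟩))
      have h3 : cc q.1 (x q) i = fun σ => D.ch (g.e (⟨i, hi⟩, q.1 ⟨i, hi⟩)) σ +
          D.ch (g.e (⟨i, hi⟩, x q ⟨i, hi⟩)) σ := funext fun σ => hcc q i hi σ
      rw [h3]
      exact h1.lc.comp₂ h2.lc (fun a b => a + b))
    (fun q _ => hSys q) (fun q _ U hU => (hFlc q U hU).1)
    (fun q => itc (gg q) g.I.toList σ₀) (fun q => ∑ i, (q.1 i : ℕ))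
    (by
      intro q _
      refine ⟨fun q' hq' => ClsE_itc (hQch q' hq').mul _ _ hlne _, fun q' _ => (hKey q q').1,
        ClsE_itc2 Gb hGc _ _ hlne _, ?_⟩
      rw [(hKey q q).2.1, hFe, hσ₀]
      intro i hi
      rw [hcc q i hi, hgg q i hi, hct, hct, if_pos rfl, if_neg, add_zero]
      intro h
      have h2 : x q ⟨i, hi⟩ = q.1 ⟨i, hi⟩ := congrArg Prod.snd h
      exact (hx q ⟨i, hi⟩).ne h2)
    (by
      intro q _ q' _ hne
      by_cases hall : ∀ i ∈ g.I, cc q'.1 (x q') i (gg q i) = 1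
      · have hle : ∀ i : {i // i ∈ g.I}, q.1 i ≤ q'.1 i := by
          rintro ⟨i, hi⟩
          have h1 := hall i hi
          rw [hcc q' i hi, hgg q i hi, hct, hct] at h1
          by_cases h2 : ((⟨i, hi⟩, q'.1 ⟨i, hi⟩) : {i // i ∈ g.I} × Fin M) = (⟨i, hi⟩, q.1 ⟨i, hi⟩)
          · exact (congrArg Prod.snd h2).symm.le
          · by_cases h3 : ((⟨i, hi⟩, x q' ⟨i, hi⟩) : {i // i ∈ g.I} × Fin M) =
                (⟨i, hi⟩, q.1 ⟨i, hi⟩)
            · have h4 : x q' ⟨i, hi⟩ = q.1 ⟨i, hi⟩ := congrArg Prod.snd h3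
              rw [← h4]
              exact (hx q' ⟨i, hi⟩).le
            · rw [if_neg h2, if_neg h3] at h1
              exact absurd h1 (by decide)
        by_cases hqq : q' = q
        · exact Or.inl hqq
        · right
          have h5 : ∃ i, q.1 i ≠ q'.1 i := by
            by_contra h6
            push Not at h6
            exact hqq (Subtype.ext (funext fun i => (h6 i).symm))
          obtain ⟨i, hi⟩ := h5
          refine sum_lt_sum (fun j _ => ?_) ⟨i, mem_univ _, ?_⟩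
          · exact_mod_cast hle j
          · exact_mod_cast lt_of_le_of_ne (hle i) hi
      · rw [(hKey q q').2.2 hall] at hne
        exact absurd (ClsE_e0 hD hC.two) hne)
  -- the index of `H`
  have hHi : H.index ≤ idB K M := by
    let X := ({i // i ∈ g.I} × Fin M) × Fin M
    let qq : X → G → ZMod 2 := fun a σ =>
      if D.ch (g.e a.1) (D.phi c₀) = D.ch (g.e (a.1.1, a.2)) (D.phi c₀) then
        D.ch (g.e a.1) σ + D.ch (g.e (a.1.1, a.2)) σ else 0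
    have h1 := hIdx (X := X) (Y := α) D hD g.I t' qq (fun q => cc q.1 (x q)) F hC.two
      (by
        intro a σ τ
        by_cases ha : D.ch (g.e a.1) (D.phi c₀) = D.ch (g.e (a.1.1, a.2)) (D.phi c₀)
        · simp only [qq, if_pos ha]
          have h1 := (hD.chc _ (heinf a.1)).mul σ τ
          have h2 := (hD.chc _ (heinf (a.1.1, a.2))).mul σ τ
          rw [h1, h2]
          ring
        · simp only [qq, if_neg ha, add_zero])
      hSys H
      (by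
        intro h hq hy
        rw [hHm]
        refine ⟨?_, fun q _ => hy q⟩
        intro q hq'
        obtain ⟨a, ha, rfl⟩ := (hQ q).mp hq'
        have h3 := hq a
        simp only [qq, if_pos ha] at h3
        exact h3)
    refine h1.trans ?_
    have hX : Fintype.card X = K * M * M := by
      rw [Fintype.card_prod, Fintype.card_prod, Fintype.card_coe, Fintype.card_fin, hC.cK]
    have hY : Fintype.card α ≤ M ^ K := by
      refine (Fintype.card_subtype_le _).trans (le_of_eq ?_)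
      rw [Fintype.card_fun, Fintype.card_coe, Fintype.card_fin, hC.cK]
    rw [hX, hC.cK, idB]
    refine Nat.mul_le_mul_left _ (Nat.pow_le_pow_right ?_ hY)
    positivity
  -- `H` is unramified outside `A`
  have hHt : ∀ v, v ∉ A → D.tau v ∈ H := by
    intro v hv
    have hvi : v ≠ D.inf := fun h => hv (h ▸ hSA hD.infS)
    have hve : ∀ k, D.ch (g.e k) (D.tau v) = 0 := fun k =>
      hD.ch_tau' _ _ (heinf k) hvi fun h => hv (h ▸ heA k)
    rw [hHm]
    refine ⟨?_, ?_⟩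
    · intro q hq
      obtain ⟨a, -, rfl⟩ := (hQ q).mp hq
      change D.ch (g.e a.1) (D.tau v) + D.ch (g.e (a.1.1, a.2)) (D.tau v) = 0
      rw [hve, hve, add_zero]
    · intro q _
      refine ⟨⟨?_, ?_⟩, ?_⟩
      · intro i hi
        rw [hcc q i hi, hve, hve, add_zero]
      · intro U hU _
        exact (hFlc q U hU).2 v hv
      · rw [(hFlc q g.I (Finset.Subset.refl _)).2 v hv]
        exact ClsE_e0 hD hC.two
  -- index of `K₀`
  have hidx : K₀.relIndex Gb ≠ 0 := by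
    have h1 := hD.fidx K₀ hK₀o
    exact fun h0 => h1 (Subgroup.index_eq_zero_of_relIndex_eq_zero h0)
  have hrat := hRat (α := {i // i ∈ g.I} × Fin M) (C := {i // i ∈ g.I} × ZMod 2) Gb K₀
    (fun k => D.ch (g.e k)) (fun k => D.tau (g.e k)) (fun k => (k.1, D.ch (g.e k) (D.phi c₀)))
    (fun k => (hD.chc _ (heinf k)).mul) (fun k => hGt _)
    (fun k => by rw [hct, if_pos rfl]) (fun k k' h => by rw [hct, if_neg h])
    (by
      intro h hh a a' haa
      obtain ⟨h1, h2⟩ := Prod.mk.inj haa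
      have h3 : a' = (a.1, a'.2) := by rw [h1]
      have h4 := ((hK₀m h).mp hh).1 _ ((hQ _).mpr ⟨(a, a'.2), by rw [← h3]; exact h2, rfl⟩)
      simp only [← h3] at h4
      have h5 := ClsE_z2 (D.ch (g.e a') h)
      exact add_right_cancel (h4.trans h5.symm))
    hidx
  have hc1 : Fintype.card ({i // i ∈ g.I} × Fin M) = K * M := by
    rw [Fintype.card_prod, Fintype.card_coe, Fintype.card_fin, hC.cK]
  have hc2 : Fintype.card ({i // i ∈ g.I} × ZMod 2) = K * 2 := by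
    rw [Fintype.card_prod, Fintype.card_coe, hC.cK, ZMod.card]
  rw [hc1, hc2] at hrat
  have hcα : #(univ : Finset α) = Nat.card α := by
    rw [Nat.card_eq_fintype_card]
    rfl
  rw [hcα] at hrel
  refine ClsE_count (S g.b) _ {c | c ∈ S g.b ∧ D.phi c ∈ H} ?_ (fun c hc => hc.1) Gb K₀ H K M
    (Nat.card α) hrel hrat (hFew H hHn hHo hHi hHt)
  rintro c ⟨hcS, hcod, hcL⟩
  refine ⟨hcS, (hHm _).mpr ⟨?_, ?_⟩⟩
  · intro q hq
    obtain ⟨a, ha, rfl⟩ := (hQ q).mp hq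
    have h1 : ∀ k, D.ch (g.e k) (D.phi c) = D.ch (g.e k) (D.phi c₀) := fun k =>
      congrFun (congrArg Prod.fst hcod) k
    change D.ch (g.e a.1) (D.phi c) + D.ch (g.e (a.1.1, a.2)) (D.phi c) = 0
    rw [h1, h1, ha]
    exact ClsE_z2 _
  · intro q _
    refine hFc q c fun w => ?_
    rw [hcL (τ q) (hτ q)]
    exact hw q w

end Pool.Agent.MP72S
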