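import Pool.Agent.Lib.MP_72e2e6_nt.Sm.Y.Spec

/-!
# MP_72e2e6_nt, `Sm/Y`, module `CntA`: the number of irreducible polynomials
-/

set_option autoImplicit false

namespace Pool.Agent.MP72T

open Polynomial Finset

theorem tCntA (hI : MP72S.SF.S_Irc) (hL : MP72S.D.S_Lo) : S_CntA := by
  classical
  intro F _ _ h2F
  obtain ⟨A, hA⟩ := hL F h2F
  obtain ⟨hfin, n₀, hn₀⟩ := hI F A hA
  have h1 : ∀ n, MP72S.SF.Irs F n =
      (some : {P : F[X] // P.Monic ∧ Irreducible P} → _) '' {P | P.1.natDegree = n} := by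
    intro n
    ext w
    constructor
    · rintro ⟨P, rfl, hP⟩
      exact ⟨P, hP, rfl⟩
    · rintro ⟨P, hP, rfl⟩
      exact ⟨P, rfl, hP⟩
  have h2 : ∀ n, {R : F[X] | R.Monic ∧ Irreducible R ∧ R.natDegree = n} =
      (Subtype.val : {P : F[X] // P.Monic ∧ Irreducible P} → F[X]) '' {P | P.1.natDegree = n} := by
    intro n
    ext R
    constructor
    · rintro ⟨hR1, hR2, hR3⟩
      exact ⟨⟨R, hR1, hR2⟩, hR3, rfl⟩
    · rintro ⟨P, hP, rfl⟩
      exact ⟨P.2.1, P.2.2, hP⟩
  have hf : ∀ n, {R : F[X] | R.Monic ∧ Irreducible R ∧ R.natDegree = n}.Finite := by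
    intro n
    rw [h2]
    refine Set.Finite.image _ ?_
    refine Set.Finite.of_finite_image (f := some) ?_ (Option.some_injective _).injOn
    rw [← h1]
    exact hfin n
  refine ⟨hf, fun n hn => ?_, n₀, fun n hn => ?_⟩
  · have h3 : ∏ R ∈ (hf n).toFinset, R ∣ X ^ (Nat.card F) ^ n - X := by
      refine Finset.prod_dvd_of_isRelPrime ?_ ?_
      · intro R hR R' hR' hne
        rw [Finset.mem_coe, Set.Finite.mem_toFinset] at hR hR'
        obtain ⟨hR1, hR2, _⟩ := hR
        obtain ⟨hR1', hR2', _⟩ := hR'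
        refine hR2.isRelPrime_iff_not_dvd.2 fun h => hne ?_
        exact Polynomial.eq_of_monic_of_associated hR1 hR1'
          ((hR2.dvd_irreducible_iff_associated hR2').1 h)
      · intro R hR
        rw [Set.Finite.mem_toFinset] at hR
        refine hR.2.1.natDegree_dvd_iff_dvd_X_pow_card_pow_sub_X.1 ?_
        rw [hR.2.2]
    have h4 : (X ^ (Nat.card F) ^ n - X : F[X]) ≠ 0 :=
      FiniteField.X_pow_card_pow_sub_X_ne_zero _ (by omega) Finite.one_lt_card
    have h5 := Polynomial.natDegree_le_of_dvd h3 h4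
    rw [FiniteField.X_pow_card_pow_sub_X_natDegree_eq _ (by omega) Finite.one_lt_card,
      Polynomial.natDegree_prod_of_monic] at h5
    · have h6 : ∑ R ∈ (hf n).toFinset, R.natDegree = (hf n).toFinset.card * n := by
        rw [Finset.sum_const_nat]
        intro R hR
        rw [Set.Finite.mem_toFinset] at hR
        exact hR.2.2
      rw [h6] at h5
      have h7 : piF F n = (hf n).toFinset.card := by
        unfold piF
        exact Set.ncard_eq_toFinset_card _ (hf n)
      rw [h7]
      have h8 : ((((hf n).toFinset.card * n : ℕ)) : ℝ) ≤ (((Nat.card F) ^ n : ℕ) : ℝ) := by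
        exact_mod_cast h5
      push_cast at h8
      linarith
    · intro R hR
      rw [Set.Finite.mem_toFinset] at hR
      exact hR.1
  · have h3 : piF F n = (MP72S.SF.Irs F n).ncard := by
      unfold piF
      rw [h1, h2, Set.ncard_image_of_injective _ Subtype.val_injective,
        Set.ncard_image_of_injective _ (Option.some_injective _)]
    rw [h3]
    exact hn₀ n hn

end Pool.Agent.MP72T
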