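import Pool.Agent.Lib.MP_72e2e6_nt.Sm.Y.Spec

/-! # Weights of the degree patterns: every shift weighs little (block Sm, file Y/CntW) -/

namespace Pool.Agent.MP72T

open Finset

private noncomputable def cwH (n : ℕ) : ℝ := ∑ k ∈ Icc 1 n, 1 / (k : ℝ)

private theorem cw_nn (k : ℕ) : 0 ≤ 1 / (k : ℝ) := by positivity

private theorem cwH_nonneg (n : ℕ) : 0 ≤ cwH n := Finset.sum_nonneg fun k _ => cw_nn k

private theorem cwH_mono {a b : ℕ} (h : a ≤ b) : cwH a ≤ cwH b :=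
  Finset.sum_le_sum_of_subset_of_nonneg (Finset.Icc_subset_Icc le_rfl h) fun k _ _ => cw_nn k

private theorem cwH_eq (n : ℕ) : cwH n = ∑ i ∈ range n, 1 / ((i : ℝ) + 1) := by
  induction n with
  | zero => simp [cwH]
  | succ n ih =>
    rw [cwH, Finset.sum_Icc_succ_top (by omega), Finset.sum_range_succ, ← ih, cwH]
    push_cast
    rfl

private theorem cwH_tendsto : Filter.Tendsto cwH Filter.atTop Filter.atTop := by
  rw [show cwH = fun n => ∑ i ∈ range n, 1 / ((i : ℝ) + 1) from funext cwH_eq]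
  exact Real.tendsto_sum_range_one_div_nat_succ_atTop

private theorem cw_split (s t u : Finset ℕ) (h : s ⊆ t ∪ u) :
    ∑ k ∈ s, 1 / (k : ℝ) ≤ ∑ k ∈ t, 1 / (k : ℝ) + ∑ k ∈ u, 1 / (k : ℝ) := by
  have h1 : ∑ k ∈ s, 1 / (k : ℝ) ≤ ∑ k ∈ t ∪ u, 1 / (k : ℝ) :=
    Finset.sum_le_sum_of_subset_of_nonneg h fun k _ _ => cw_nn k
  have h2 := Finset.sum_union_inter (s₁ := t) (s₂ := u) (f := fun k : ℕ => 1 / (k : ℝ))
  have h3 : 0 ≤ ∑ k ∈ t ∩ u, 1 / (k : ℝ) := Finset.sum_nonneg fun k _ => cw_nn k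
  linarith

private theorem cwH_half (n : ℕ) : cwH n ≤ cwH (n / 2) + 1 := by
  have h1 := cw_split (Icc 1 n) (Icc 1 (n / 2)) (Ioc (n / 2) n) (by
    intro k hk
    rw [Finset.mem_Icc] at hk
    rw [Finset.mem_union, Finset.mem_Icc, Finset.mem_Ioc]
    omega)
  have h2 : ∑ k ∈ Ioc (n / 2) n, 1 / (k : ℝ) ≤
      (Ioc (n / 2) n).card • (1 / (((n / 2 : ℕ) : ℝ) + 1)) := by
    refine Finset.sum_le_card_nsmul _ _ _ fun k hk => ?_
    rw [Finset.mem_Ioc] at hk
    have h3 : ((n / 2 : ℕ) : ℝ) + 1 ≤ k := by exact_mod_cast hk.1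
    exact one_div_le_one_div_of_le (by positivity) h3
  rw [Nat.card_Ioc, nsmul_eq_mul] at h2
  have h4 : ((n - n / 2 : ℕ) : ℝ) ≤ ((n / 2 : ℕ) : ℝ) + 1 := by
    have : n - n / 2 ≤ n / 2 + 1 := by omega
    exact_mod_cast this
  have h5 : ((n - n / 2 : ℕ) : ℝ) * (1 / (((n / 2 : ℕ) : ℝ) + 1)) ≤ 1 := by
    rw [mul_one_div, div_le_one (by positivity)]
    exact h4
  unfold cwH
  linarith

private theorem cw_nonneg (m : ℕ) : ∀ r n, 0 ≤ Wn m r n := by
  intro r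
  induction r with
  | zero =>
    intro n
    rw [Wn]
    split_ifs <;> norm_num
  | succ r ih =>
    intro n
    rw [Wn]
    exact Finset.sum_nonneg fun k _ => mul_nonneg (cw_nn k) (ih _)

private theorem cw_succ {m : ℕ} (hm : 1 ≤ m) (r n : ℕ) :
    Wn m (r + 1) n = ∑ k ∈ Icc m n, (1 / (k : ℝ)) * Wn m r (n - k) := by
  rw [Wn]
  refine Finset.sum_congr ?_ fun _ _ => rfl
  ext k
  rw [Finset.mem_filter, Finset.mem_range, Finset.mem_Icc]
  omega

private theorem cw_one {m : ℕ} (hm : 1 ≤ m) {n : ℕ} (hn : m ≤ n) : Wn m 1 n = 1 / (n : ℝ) := by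
  rw [cw_succ hm, Finset.sum_eq_single n]
  · rw [Nat.sub_self, Wn, if_pos rfl, mul_one]
  · intro k hk hkn
    rw [Finset.mem_Icc] at hk
    rw [Wn, if_neg (by omega), mul_zero]
  · intro h
    exact absurd (Finset.mem_Icc.2 ⟨hn, le_rfl⟩) h

private theorem cw_refl (n : ℕ) :
    ∑ k ∈ Icc 1 n, 1 / ((n + 1 - k : ℕ) : ℝ) = cwH n := by
  unfold cwH
  refine Finset.sum_nbij' (fun k => n + 1 - k) (fun k => n + 1 - k) ?_ ?_ ?_ ?_ ?_
  · intro k hk
    rw [Finset.mem_Icc] at hk ⊢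
    omega
  · intro k hk
    rw [Finset.mem_Icc] at hk ⊢
    omega
  · intro k hk
    rw [Finset.mem_Icc] at hk
    omega
  · intro k hk
    rw [Finset.mem_Icc] at hk
    omega
  · intro k _
    rfl

private theorem cw_up (r : ℕ) : ∀ n, 1 ≤ n → Wn 1 (r + 1) n ≤ 2 ^ r * cwH n ^ r / n := by
  induction r with
  | zero =>
    intro n hn
    rw [cw_one le_rfl hn]
    simp
  | succ r ih =>
    intro n hn
    obtain ⟨N, rfl⟩ : ∃ N, n = N + 1 := ⟨n - 1, by omega⟩
    rw [cw_succ le_rfl, Finset.sum_Icc_succ_top (by omega)]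
    have h0 : Wn 1 (r + 1) (N + 1 - (N + 1)) = 0 := by
      rw [Nat.sub_self, cw_succ le_rfl]
      simp
    rw [h0, mul_zero, add_zero]
    have hN : (0 : ℝ) < (N : ℝ) + 1 := by positivity
    have h1 : ∀ k ∈ Icc 1 N, 1 / (k : ℝ) * Wn 1 (r + 1) (N + 1 - k) ≤
        2 ^ r * cwH (N + 1) ^ r / ((N : ℝ) + 1) * (1 / (k : ℝ) + 1 / ((N + 1 - k : ℕ) : ℝ)) := by
      intro k hk
      rw [Finset.mem_Icc] at hk
      have hk0 : (0 : ℝ) < k := by exact_mod_cast hk.1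
      have hk1 : 1 ≤ N + 1 - k := by omega
      have hk2 : (0 : ℝ) < ((N + 1 - k : ℕ) : ℝ) := by exact_mod_cast hk1
      have h2 : Wn 1 (r + 1) (N + 1 - k) ≤ 2 ^ r * cwH (N + 1) ^ r / ((N + 1 - k : ℕ) : ℝ) := by
        refine (ih _ hk1).trans ?_
        gcongr
        · exact cwH_nonneg _
        · exact cwH_mono (by omega)
      have h3 : ((N + 1 - k : ℕ) : ℝ) = (N : ℝ) + 1 - k := by
        rw [Nat.cast_sub (by omega)]
        push_cast
        ring
      have h4 : 2 ^ r * cwH (N + 1) ^ r / ((N : ℝ) + 1) *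
          (1 / (k : ℝ) + 1 / ((N + 1 - k : ℕ) : ℝ)) =
          1 / (k : ℝ) * (2 ^ r * cwH (N + 1) ^ r / ((N + 1 - k : ℕ) : ℝ)) := by
        rw [h3] at hk2 ⊢
        field_simp
        ring
      rw [h4]
      exact mul_le_mul_of_nonneg_left h2 (by positivity)
    refine (Finset.sum_le_sum h1).trans ?_
    rw [← Finset.mul_sum, Finset.sum_add_distrib, cw_refl]
    have h5 : cwH N ≤ cwH (N + 1) := cwH_mono (by omega)
    have h6 : ∑ k ∈ Icc 1 N, 1 / (k : ℝ) = cwH N := rfl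
    rw [h6]
    have h7 : 0 ≤ 2 ^ r * cwH (N + 1) ^ r / ((N : ℝ) + 1) := by
      have := cwH_nonneg (N + 1)
      positivity
    have h8 : 2 ^ r * cwH (N + 1) ^ r / ((N : ℝ) + 1) * (cwH N + cwH N) ≤
        2 ^ r * cwH (N + 1) ^ r / ((N : ℝ) + 1) * (cwH (N + 1) + cwH (N + 1)) :=
      mul_le_mul_of_nonneg_left (by linarith) h7
    refine h8.trans (le_of_eq ?_)
    push_cast
    ring

private theorem cw_lo {m : ℕ} (hm : 1 ≤ m) (r : ℕ) :
    ∃ c : ℝ, 0 < c ∧ ∃ n₁ : ℕ, ∀ n, n₁ ≤ n → c * cwH n ^ r / n ≤ Wn m (r + 1) n := by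
  induction r with
  | zero =>
    refine ⟨1, one_pos, m, fun n hn => ?_⟩
    rw [cw_one hm hn]
    simp
  | succ r ih =>
    obtain ⟨c, hc, n₁, h1⟩ := ih
    have hev : ∀ᶠ n in Filter.atTop, 2 * (1 + cwH m) ≤ cwH n :=
      cwH_tendsto.eventually_ge_atTop _
    obtain ⟨n₂, hn₂⟩ := Filter.eventually_atTop.1 hev
    refine ⟨c * (1 / 2) ^ (r + 1), by positivity, max (max n₂ (2 * n₁ + 2)) (4 * m), ?_⟩
    intro n hn
    have hn1 : n₂ ≤ n := (le_max_left _ _).trans ((le_max_left _ _).trans hn)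
    have hn2 : 2 * n₁ + 2 ≤ n := (le_max_right _ _).trans ((le_max_left _ _).trans hn)
    have hn3 : 4 * m ≤ n := (le_max_right _ _).trans hn
    have hH := hn₂ n hn1
    have hHm := cwH_nonneg m
    have hhalf := cwH_half n
    have hn0 : (0 : ℝ) < n := by
      have : 0 < n := by omega
      exact_mod_cast this
    -- the partial sum
    have hsum : cwH n / 2 ≤ ∑ k ∈ Icc m (n / 2), 1 / (k : ℝ) := by
      have h2 := cw_split (Icc 1 (n / 2)) (Icc 1 m) (Icc m (n / 2)) (by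
        intro k hk
        rw [Finset.mem_Icc] at hk
        rw [Finset.mem_union, Finset.mem_Icc, Finset.mem_Icc]
        omega)
      have h3 : cwH (n / 2) ≤ cwH m + ∑ k ∈ Icc m (n / 2), 1 / (k : ℝ) := h2
      linarith
    rw [cw_succ hm]
    have hsub : Icc m (n / 2) ⊆ Icc m n := Finset.Icc_subset_Icc le_rfl (by omega)
    have h4 : ∑ k ∈ Icc m (n / 2), 1 / (k : ℝ) * (c * (cwH n / 2) ^ r / n) ≤
        ∑ k ∈ Icc m n, 1 / (k : ℝ) * Wn m (r + 1) (n - k) := by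
      refine le_trans (Finset.sum_le_sum fun k hk => ?_)
        (Finset.sum_le_sum_of_subset_of_nonneg hsub
          fun k _ _ => mul_nonneg (cw_nn k) (cw_nonneg _ _ _))
      rw [Finset.mem_Icc] at hk
      refine mul_le_mul_of_nonneg_left ?_ (cw_nn k)
      refine le_trans ?_ (h1 (n - k) (by omega))
      have h5 : cwH n / 2 ≤ cwH (n - k) := by
        have h6 : cwH (n / 2) ≤ cwH (n - k) := cwH_mono (by omega)
        linarith
      have h6 : (0 : ℝ) < ((n - k : ℕ) : ℝ) := by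
        have : 0 < n - k := by omega
        exact_mod_cast this
      have h7 : ((n - k : ℕ) : ℝ) ≤ n := by exact_mod_cast Nat.sub_le n k
      have h8 : (cwH n / 2) ^ r ≤ cwH (n - k) ^ r :=
        pow_le_pow_left₀ (by linarith [cwH_nonneg n]) h5 r
      have h9 : 0 ≤ (cwH n / 2) ^ r := pow_nonneg (by linarith [cwH_nonneg n]) r
      have h10 : 0 ≤ c * cwH (n - k) ^ r := mul_nonneg hc.le (pow_nonneg (cwH_nonneg _) r)
      exact div_le_div₀ h10 (mul_le_mul_of_nonneg_left h8 hc.le) h6 h7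
    refine le_trans ?_ h4
    rw [← Finset.sum_mul]
    have h10 : 0 ≤ c * (cwH n / 2) ^ r / n := by
      have := cwH_nonneg n
      positivity
    refine le_trans (le_of_eq ?_) (mul_le_mul_of_nonneg_right hsum h10)
    field_simp
    ring

theorem tCntW : S_CntW := by
  intro r m δ hδ hm
  obtain ⟨c, hc, n₁, hlo⟩ := cw_lo hm (r + 1)
  have hev : ∀ᶠ n in Filter.atTop, 2 ^ (r + 1) / (δ * c) + 1 ≤ cwH n :=
    cwH_tendsto.eventually_ge_atTop _
  obtain ⟨n₂, hn₂⟩ := Filter.eventually_atTop.1 hev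
  refine ⟨max (max n₁ n₂) (2 * m + 2), fun n hn => ?_⟩
  have hn1 : n₁ ≤ n := (le_max_left _ _).trans ((le_max_left _ _).trans hn)
  have hn2 : n₂ ≤ n := (le_max_right _ _).trans ((le_max_left _ _).trans hn)
  have hn3 : 2 * m + 2 ≤ n := (le_max_right _ _).trans hn
  have hH := hn₂ n hn2
  have hn0 : (0 : ℝ) < n := by
    have : 0 < n := by omega
    exact_mod_cast this
  have hq : 0 ≤ 2 ^ (r + 1) / (δ * c) := by positivity
  have hHpos : 0 < cwH n := by linarith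
  have hW := hlo n hn1
  have hWpos : 0 < Wn m (r + 2) n := lt_of_lt_of_le (by positivity) hW
  refine ⟨hWpos, fun j hj => ?_⟩
  have hnj : 1 ≤ n - j := by omega
  have h1 := cw_up r (n - j) hnj
  have h2 : (n : ℝ) / 2 ≤ ((n - j : ℕ) : ℝ) := by
    have h3 : n ≤ 2 * (n - j) := by omega
    have h4 : (n : ℝ) ≤ 2 * ((n - j : ℕ) : ℝ) := by exact_mod_cast h3
    linarith
  have h3 : 2 ^ r * cwH (n - j) ^ r / ((n - j : ℕ) : ℝ) ≤ 2 ^ r * cwH n ^ r / ((n : ℝ) / 2) := by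
    have h4 := cwH_nonneg (n - j)
    gcongr
    exact cwH_mono (Nat.sub_le _ _)
  refine h1.trans (h3.trans ?_)
  have h5 : δ * (c * cwH n ^ (r + 1) / n) ≤ δ * Wn m (r + 2) n :=
    mul_le_mul_of_nonneg_left hW hδ.le
  refine le_trans ?_ h5
  have h6 : 2 ^ (r + 1) ≤ δ * c * cwH n := by
    have h7 : 2 ^ (r + 1) / (δ * c) ≤ cwH n := by linarith
    rw [div_le_iff₀ (by positivity)] at h7
    linarith
  have h8 : 2 ^ r * cwH n ^ r / ((n : ℝ) / 2) = 2 ^ (r + 1) * (cwH n ^ r / n) := by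
    field_simp
    ring
  have h9 : δ * (c * cwH n ^ (r + 1) / n) = (δ * c * cwH n) * (cwH n ^ r / n) := by
    field_simp
    ring
  rw [h8, h9]
  exact mul_le_mul_of_nonneg_right h6 (by positivity)

end Pool.Agent.MP72T
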