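import Pool.Agent.Lib.MP_72e2e6_nt.Sm.Y.Spec

/-! # Products and tuples of irreducible polynomials (block Sm, file Y/Cor1) -/

namespace Pool.Agent.MP72T

open Polynomial

private theorem c1_fin (F : Type) [Field F] [Finite F] (n : ℕ) :
    {p : F[X] | p.natDegree ≤ n}.Finite := by
  refine Set.Finite.of_injOn (f := fun p (i : Fin (n + 1)) => p.coeff i) (t := Set.univ)
    (Set.mapsTo_univ _ _) ?_ Set.finite_univ
  intro p hp q hq h
  have hp' : p.natDegree ≤ n := hp
  have hq' : q.natDegree ≤ n := hq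
  ext k
  by_cases hk : k < n + 1
  · exact congrFun h ⟨k, hk⟩
  · rw [coeff_eq_zero_of_natDegree_lt (by omega), coeff_eq_zero_of_natDegree_lt (by omega)]

private theorem c1_deg {F : Type} [Field F] {r : ℕ} {R : Fin r → F[X]} (h : ∀ i, (R i).Monic) :
    (∏ i, R i).natDegree = ∑ i, (R i).natDegree :=
  natDegree_prod_of_monic _ _ fun i _ => h i

private theorem c1_perm {F : Type} [Field F] {r : ℕ} {R R' : Fin r → F[X]}
    (h : ∀ i, (R i).Monic ∧ Irreducible (R i)) (h' : ∀ i, (R' i).Monic ∧ Irreducible (R' i))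
    (hinj : Function.Injective R) (he : ∏ i, R i = ∏ i, R' i) :
    ∃ σ : Equiv.Perm (Fin r), R = R' ∘ σ := by
  have h1 : ∀ i, ∃ j, R i = R' j := by
    intro i
    have h2 : R i ∣ ∏ j, R' j := he ▸ Finset.dvd_prod_of_mem R (Finset.mem_univ i)
    obtain ⟨j, -, hj⟩ := ((h i).2.prime.dvd_finset_prod_iff _).1 h2
    refine ⟨j, eq_of_monic_of_associated (h i).1 (h' j).1 ?_⟩
    exact (h i).2.associated_of_dvd (h' j).2 hj
  choose τ hτ using h1
  have h3 : Function.Injective τ := by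
    intro a b hab
    exact hinj (by rw [hτ a, hτ b, hab])
  refine ⟨Equiv.ofBijective τ (Finite.injective_iff_bijective.1 h3), ?_⟩
  funext i
  exact hτ i

theorem tCor1 : S_Cor1 := by
  intro F _ _ B r n Q
  classical
  have hs : (sqp F B r n).Finite := (c1_fin F n).subset fun M hM => le_of_eq hM.2.1
  have ht : (tpn F B r n).Finite := by
    refine (Set.Finite.pi' fun _ : Fin r => c1_fin F n).subset fun R hR i => ?_
    exact (Finset.single_le_sum (f := fun i => (R i).natDegree) (fun _ _ => Nat.zero_le _)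
      (Finset.mem_univ i)).trans (le_of_eq hR.2)
  refine ⟨hs, ht, ?_⟩
  have hs' : {M ∈ sqp F B r n | Q M}.Finite := hs.subset fun M hM => hM.1
  have ht' : {R ∈ tpn F B r n | Function.Injective R ∧ Q (∏ i, R i)}.Finite :=
    ht.subset fun R hR => hR.1
  rw [Set.ncard_eq_toFinset_card _ hs', Set.ncard_eq_toFinset_card _ ht',
    Finset.card_eq_sum_card_fiberwise (f := fun R : Fin r → F[X] => ∏ i, R i)
      (t := hs'.toFinset)]
  · rw [Finset.sum_const_nat (m := r.factorial), mul_comm]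
    intro M hM
    rw [Set.Finite.mem_toFinset] at hM
    obtain ⟨⟨hM1, hM2, hM3, R₀, hR₀, hinj, hMe⟩, hQ⟩ := hM
    have h1 : {a ∈ ht'.toFinset | ∏ i, a i = M} =
        Finset.univ.image fun σ : Equiv.Perm (Fin r) => R₀ ∘ σ := by
      ext R
      rw [Finset.mem_filter, Set.Finite.mem_toFinset, Finset.mem_image]
      constructor
      · rintro ⟨⟨⟨hR1, hR2⟩, hR3, hR4⟩, hR5⟩
        obtain ⟨σ, hσ⟩ := c1_perm (fun i => ⟨(hR1 i).1, (hR1 i).2.1⟩) hR₀ hR3 (hR5.trans hMe)
        exact ⟨σ, Finset.mem_univ _, hσ.symm⟩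
      · rintro ⟨σ, -, rfl⟩
        have h2 : ∏ i, (R₀ ∘ σ) i = M := by
          rw [hMe]
          exact Equiv.prod_comp σ R₀
        have hco : ∀ i, IsCoprime (R₀ i) B := by
          intro i
          rw [hMe] at hM3
          exact IsCoprime.prod_left_iff.1 hM3 i (Finset.mem_univ i)
        refine ⟨⟨⟨fun i => ⟨(hR₀ (σ i)).1, (hR₀ (σ i)).2, hco (σ i)⟩, ?_⟩,
          hinj.comp σ.injective, ?_⟩, h2⟩
        · rw [← c1_deg (R := R₀ ∘ σ) (fun i => (hR₀ (σ i)).1), h2, hM2]
        · rw [h2]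
          exact hQ
    rw [h1, Finset.card_image_of_injective, Finset.card_univ, Fintype.card_perm, Fintype.card_fin]
    intro σ τ hστ
    ext i
    exact congrArg Fin.val (hinj (congrFun hστ i))
  · intro R hR
    have hR' := ht'.mem_toFinset.1 hR
    refine hs'.mem_toFinset.2 ?_
    obtain ⟨⟨hR1, hR2⟩, hR3, hR4⟩ := hR'
    refine ⟨⟨monic_prod_of_monic _ _ fun i _ => (hR1 i).1, ?_, ?_, R,
      fun i => ⟨(hR1 i).1, (hR1 i).2.1⟩, hR3, rfl⟩, hR4⟩
    · change (∏ i, R i).natDegree = n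
      rw [c1_deg fun i => (hR1 i).1, hR2]
    · exact IsCoprime.prod_left_iff.2 fun i _ => (hR1 i).2.2

end Pool.Agent.MP72T
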