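import Pool.Agent.Lib.MP_72e2e6_nt.Sm.Y.Spec

/-!
# MP_72e2e6_nt, `Sm/Y/Cor2`: few tuples have a small degree or are not injective
-/

namespace Pool.Agent.MP72T

open Polynomial WeierstrassCurve Finset

namespace Cor2Aux

variable {F : Type} [Field F]

/-- The monic irreducible polynomials of degree `k`. -/
def I (F : Type) [Field F] (k : ℕ) : Set F[X] :=
  {R : F[X] | R.Monic ∧ Irreducible R ∧ R.natDegree = k}

/-- The tuples with degrees at least `m`. -/
def T (F : Type) [Field F] (m l n : ℕ) : Set (Fin l → F[X]) :=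
  {R | (∀ i, (R i).Monic ∧ Irreducible (R i) ∧ m ≤ (R i).natDegree) ∧
    ∑ i, (R i).natDegree = n}

theorem le_sum {l n : ℕ} {R : Fin l → F[X]} (h : ∑ i, (R i).natDegree = n) (i : Fin l) :
    (R i).natDegree ≤ n := by
  rw [← h]
  exact Finset.single_le_sum (f := fun i => (R i).natDegree) (fun _ _ => Nat.zero_le _)
    (mem_univ i)

theorem tup_finite (hf : ∀ k, (I F k).Finite) (l n : ℕ) :
    {R : Fin l → F[X] | (∀ i, (R i).Monic ∧ Irreducible (R i)) ∧
      ∑ i, (R i).natDegree = n}.Finite := by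
  have h2 : (⋃ k ∈ Set.Iic n, I F k).Finite := (Set.finite_Iic n).biUnion fun k _ => hf k
  refine (Set.Finite.pi (t := fun _ : Fin l => ⋃ k ∈ Set.Iic n, I F k) fun _ => h2).subset ?_
  intro R hR i _
  exact Set.mem_biUnion (Set.mem_Iic.2 (le_sum hR.2 i)) ⟨(hR.1 i).1, (hR.1 i).2, rfl⟩

theorem T_finite (hf : ∀ k, (I F k).Finite) (m l n : ℕ) : (T F m l n).Finite :=
  (tup_finite hf l n).subset fun _ hR => ⟨fun i => ⟨(hR.1 i).1, (hR.1 i).2.1⟩, hR.2⟩

/-- The same as a finite set. -/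
noncomputable def iF (hf : ∀ k, (I F k).Finite) (k : ℕ) : Finset F[X] := (hf k).toFinset

/-- The same as a finite set. -/
noncomputable def tF (hf : ∀ k, (I F k).Finite) (m l n : ℕ) : Finset (Fin l → F[X]) :=
  (T_finite hf m l n).toFinset

theorem mem_iF {hf : ∀ k, (I F k).Finite} {k : ℕ} {R : F[X]} :
    R ∈ iF hf k ↔ R.Monic ∧ Irreducible R ∧ R.natDegree = k := by
  unfold iF
  rw [Set.Finite.mem_toFinset]
  rfl

theorem mem_tF {hf : ∀ k, (I F k).Finite} {m l n : ℕ} {R : Fin l → F[X]} :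
    R ∈ tF hf m l n ↔ (∀ i, (R i).Monic ∧ Irreducible (R i) ∧ m ≤ (R i).natDegree) ∧
      ∑ i, (R i).natDegree = n := by
  unfold tF
  rw [Set.Finite.mem_toFinset]
  rfl

theorem card_iF (hf : ∀ k, (I F k).Finite) (k : ℕ) : (iF hf k).card = piF F k := by
  unfold iF piF
  exact (Set.ncard_eq_toFinset_card _ (hf k)).symm

theorem card_succ (hf : ∀ k, (I F k).Finite) (m l n : ℕ) :
    (tF hf m (l + 1) n).card = ∑ k ∈ (Finset.range (n + 1)).filter (fun k => m ≤ k ∧ 1 ≤ k),
      (iF hf k).card * (tF hf m l (n - k)).card := by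
  classical
  rw [Finset.card_eq_sum_card_fiberwise (f := fun R : Fin (l + 1) → F[X] => (R 0).natDegree)
    (t := (Finset.range (n + 1)).filter (fun k => m ≤ k ∧ 1 ≤ k)) ?_]
  · refine Finset.sum_congr rfl fun k hk => ?_
    rw [mem_filter, Finset.mem_range] at hk
    rw [← Finset.card_product]
    refine Finset.card_nbij' (fun R => (R 0, Fin.tail R)) (fun p => Fin.cons p.1 p.2) ?_ ?_ ?_ ?_
    · intro R hR
      simp only [Finset.mem_coe, mem_filter, mem_tF] at hR
      obtain ⟨⟨h1, h2⟩, h3⟩ := hR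
      rw [Fin.sum_univ_succ] at h2
      simp only [Finset.mem_coe, mem_product, mem_iF, mem_tF]
      refine ⟨⟨(h1 0).1, (h1 0).2.1, h3⟩, fun i => h1 i.succ, ?_⟩
      change ∑ i : Fin l, (R i.succ).natDegree = n - k
      omega
    · intro p hp
      simp only [Finset.mem_coe, mem_product, mem_iF, mem_tF] at hp
      obtain ⟨⟨h1, h2, h3⟩, h4, h5⟩ := hp
      simp only [Finset.mem_coe, mem_filter, mem_tF]
      refine ⟨⟨?_, ?_⟩, ?_⟩
      · intro i
        refine Fin.cases ?_ (fun i => ?_) i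
        · rw [Fin.cons_zero]
          exact ⟨h1, h2, by omega⟩
        · rw [Fin.cons_succ]
          exact h4 i
      · rw [Fin.sum_univ_succ, Fin.cons_zero]
        simp only [Fin.cons_succ]
        omega
      · rw [Fin.cons_zero]
        exact h3
    · intro R _
      exact Fin.cons_self_tail R
    · intro p _
      simp only [Fin.cons_zero, Fin.tail_cons]
  · intro R hR
    rw [Finset.mem_coe, mem_tF] at hR
    rw [Finset.mem_coe, mem_filter, Finset.mem_range]
    exact ⟨Nat.lt_succ_of_le (le_sum hR.2 0), (hR.1 0).2.2, (hR.1 0).2.1.natDegree_pos⟩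

theorem Wn_nonneg (m : ℕ) : ∀ l n, 0 ≤ Wn m l n := by
  intro l
  induction l with
  | zero =>
    intro n
    unfold Wn
    split_ifs <;> norm_num
  | succ l ih =>
    intro n
    unfold Wn
    exact Finset.sum_nonneg fun k _ => mul_nonneg (by positivity) (ih _)

theorem upper (hf : ∀ k, (I F k).Finite) (q : ℝ) (hq : 0 < q)
    (hu : ∀ k : ℕ, 1 ≤ k → (k : ℝ) * ((iF hf k).card : ℝ) ≤ q ^ k) (m : ℕ) :
    ∀ l n, ((tF hf m l n).card : ℝ) ≤ q ^ n * Wn m l n := by
  intro l
  induction l with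
  | zero =>
    intro n
    unfold Wn
    by_cases hn : n = 0
    · rw [if_pos hn, hn, pow_zero, mul_one]
      exact_mod_cast Finset.card_le_one_of_subsingleton _
    · rw [if_neg hn, mul_zero]
      have : tF hf m 0 n = ∅ := by
        apply Finset.eq_empty_of_forall_notMem
        intro R hR
        rw [mem_tF] at hR
        exact hn (by simpa using hR.2.symm)
      rw [this]
      simp
  | succ l ih =>
    intro n
    rw [card_succ, Wn, Finset.mul_sum]
    push_cast
    refine Finset.sum_le_sum fun k hk => ?_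
    rw [mem_filter, Finset.mem_range] at hk
    have hk0 : (0 : ℝ) < k := by exact_mod_cast hk.2.2
    have e1 : ((iF hf k).card : ℝ) ≤ q ^ k * (1 / k) := by
      rw [mul_one_div, le_div_iff₀ hk0, mul_comm]
      exact hu k hk.2.2
    calc ((iF hf k).card : ℝ) * ((tF hf m l (n - k)).card : ℝ)
        ≤ (q ^ k * (1 / k)) * (q ^ (n - k) * Wn m l (n - k)) :=
          mul_le_mul e1 (ih _) (Nat.cast_nonneg _) (by positivity)
      _ = (q ^ k * q ^ (n - k)) * ((1 / k) * Wn m l (n - k)) := by ring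
      _ = q ^ n * ((1 / k) * Wn m l (n - k)) := by
          rw [← pow_add, Nat.add_sub_cancel' (by omega)]

theorem lower (hf : ∀ k, (I F k).Finite) (q : ℝ) (hq : 0 < q) (m : ℕ)
    (hl : ∀ k : ℕ, m ≤ k → 3 * q ^ k ≤ 4 * ((k : ℝ) * ((iF hf k).card : ℝ))) :
    ∀ l n, (3 / 4 : ℝ) ^ l * (q ^ n * Wn m l n) ≤ ((tF hf m l n).card : ℝ) := by
  intro l
  induction l with
  | zero =>
    intro n
    unfold Wn
    by_cases hn : n = 0
    · rw [if_pos hn, hn, pow_zero, mul_one, pow_zero, one_mul]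
      have : 0 < (tF hf m 0 0).card := by
        rw [Finset.card_pos]
        refine ⟨fun i => i.elim0, mem_tF.2 ⟨fun i => i.elim0, ?_⟩⟩
        simp
      exact_mod_cast this
    · rw [if_neg hn, mul_zero, mul_zero]
      positivity
  | succ l ih =>
    intro n
    rw [card_succ, Wn, Finset.mul_sum, Finset.mul_sum]
    push_cast
    refine Finset.sum_le_sum fun k hk => ?_
    rw [mem_filter, Finset.mem_range] at hk
    have hk0 : (0 : ℝ) < k := by exact_mod_cast hk.2.2
    have e1 : 3 / 4 * (q ^ k * (1 / k)) ≤ ((iF hf k).card : ℝ) := by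
      have := hl k hk.2.1
      rw [mul_one_div, ← mul_div_assoc, div_le_iff₀ hk0]
      linarith
    calc (3 / 4 : ℝ) ^ (l + 1) * (q ^ n * (1 / k * Wn m l (n - k)))
        = (3 / 4 : ℝ) ^ (l + 1) * ((q ^ k * q ^ (n - k)) * ((1 / k) * Wn m l (n - k))) := by
          rw [← pow_add, Nat.add_sub_cancel' (by omega : k ≤ n)]
      _ = (3 / 4 * (q ^ k * (1 / k))) * ((3 / 4 : ℝ) ^ l * (q ^ (n - k) * Wn m l (n - k))) := by
          ring
      _ ≤ ((iF hf k).card : ℝ) * ((tF hf m l (n - k)).card : ℝ) :=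
          mul_le_mul e1 (ih _) (mul_nonneg (by positivity)
            (mul_nonneg (by positivity) (Wn_nonneg _ _ _))) (Nat.cast_nonneg _)

theorem sq_le_two_pow : ∀ k : ℕ, 4 ≤ k → k * k ≤ 2 ^ k := by
  intro k hk
  induction k, hk using Nat.le_induction with
  | base => norm_num
  | succ k hk ih =>
    rw [pow_succ]
    nlinarith

/-- Small degree at `i`. -/
theorem small_card (hf : ∀ k, (I F k).Finite) (m s n : ℕ) (i : Fin (s + 1)) :
    ((tF hf 1 (s + 1) n).filter (fun R => (R i).natDegree < m)).card ≤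
      ∑ k ∈ (Finset.range m).filter (fun k => 1 ≤ k ∧ k ≤ n),
        (iF hf k).card * (tF hf 1 s (n - k)).card := by
  classical
  rw [Finset.card_eq_sum_card_fiberwise (f := fun R : Fin (s + 1) → F[X] => (R i).natDegree)
    (t := (Finset.range m).filter (fun k => 1 ≤ k ∧ k ≤ n)) ?_]
  · refine Finset.sum_le_sum fun k hk => ?_
    rw [mem_filter, Finset.mem_range] at hk
    rw [← Finset.card_product]
    refine Finset.card_le_card_of_injOn (fun R => (R i, fun j => R (i.succAbove j))) ?_ ?_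
    · intro R hR
      simp only [Finset.mem_coe, mem_filter, mem_tF] at hR
      obtain ⟨⟨⟨h1, h2⟩, -⟩, h3⟩ := hR
      rw [Fin.sum_univ_succAbove _ i] at h2
      simp only [Finset.mem_coe, mem_product, mem_iF, mem_tF]
      refine ⟨⟨(h1 i).1, (h1 i).2.1, h3⟩, fun j => h1 _, ?_⟩
      omega
    · intro R _ R' _ h
      simp only [Prod.mk.injEq] at h
      funext j
      refine (Fin.forall_iff_succAbove (P := fun j => R j = R' j) i).2 ⟨h.1, fun j => ?_⟩ j
      exact congrFun h.2 j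
  · intro R hR
    rw [Finset.mem_coe, mem_filter, mem_tF] at hR
    rw [Finset.mem_coe, mem_filter, Finset.mem_range]
    exact ⟨hR.2, (hR.1.1 i).2.2, le_sum hR.1.2 i⟩

/-- Two equal entries. -/
theorem equal_card [DecidableEq F[X]] (hf : ∀ k, (I F k).Finite) (m s n K : ℕ)
    (hK : ∀ k, m ≤ k → K ≤ (iF hf k).card) (i j : Fin s) (hij : i ≠ j) :
    ((tF hf m s n).filter (fun R => R i = R j)).card * K ≤ (tF hf m s n).card := by
  classical
  have h1 : ((tF hf m s n).filter (fun R => R i = R j)).card * K ≤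
      (((tF hf m s n).filter (fun R => R i = R j)).sigma
        (fun R => iF hf (R j).natDegree)).card := by
    rw [Finset.card_sigma, ← smul_eq_mul]
    refine Finset.card_nsmul_le_sum _ _ _ fun R hR => ?_
    rw [mem_filter, mem_tF] at hR
    exact hK _ (hR.1.1 j).2.2
  refine h1.trans (Finset.card_le_card_of_injOn (fun p => Function.update p.1 j p.2) ?_ ?_)
  · rintro ⟨R, Q⟩ hp
    rw [Finset.mem_coe, Finset.mem_sigma, mem_filter, mem_tF, mem_iF] at hp
    obtain ⟨⟨⟨h2, h3⟩, -⟩, h4, h5, h6⟩ := hp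
    rw [Finset.mem_coe, mem_tF]
    have h7 : ∀ k, (Function.update R j Q k).natDegree = (R k).natDegree := by
      intro k
      by_cases hk : k = j
      · subst hk
        rw [Function.update_self]
        exact h6
      · rw [Function.update_of_ne hk]
    refine ⟨fun k => ?_, ?_⟩
    · by_cases hk : k = j
      · subst hk
        simp only [Function.update_self]
        exact ⟨h4, h5, by rw [h6]; exact (h2 k).2.2⟩
      · simp only [Function.update_of_ne hk]
        exact h2 k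
    · rw [← h3]
      exact Finset.sum_congr rfl fun k _ => h7 k
  · rintro ⟨R, Q⟩ hp ⟨R', Q'⟩ hp' h
    rw [Finset.mem_coe, Finset.mem_sigma, mem_filter] at hp hp'
    have hR : R i = R j := hp.1.2
    have hR' : R' i = R' j := hp'.1.2
    simp only at h
    have hQ : Q = Q' := by
      have := congrFun h j
      rwa [Function.update_self, Function.update_self] at this
    have hne : ∀ k, k ≠ j → R k = R' k := by
      intro k hk
      have := congrFun h k
      rwa [Function.update_of_ne hk, Function.update_of_ne hk] at this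
    have hRR : R = R' := by
      funext k
      by_cases hk : k = j
      · rw [hk, ← hR, ← hR']
        exact hne i hij
      · exact hne k hk
    rw [hQ, hRR]

end Cor2Aux

open Cor2Aux in
theorem tCor2 : S_CntA → S_CntW → S_Cor2 := by
  classical
  intro hA hW F _ _ h2 B hB r m₀ δ hδ
  obtain ⟨hf', hu', n0, hl'⟩ := hA F h2
  have hf : ∀ k, (I F k).Finite := hf'
  have hq2 : (2 : ℝ) ≤ (Nat.card F : ℝ) := by
    exact_mod_cast Finite.one_lt_card
  obtain ⟨q, hq⟩ : ∃ q : ℝ, q = (Nat.card F : ℝ) := ⟨_, rfl⟩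
  rw [← hq] at hq2
  have hq0 : 0 < q := by linarith
  have hu : ∀ k : ℕ, 1 ≤ k → (k : ℝ) * ((iF hf k).card : ℝ) ≤ q ^ k := by
    intro k hk
    rw [card_iF, hq]
    exact hu' k hk
  have hl : ∀ k : ℕ, n0 ≤ k → 3 * q ^ k ≤ 4 * ((k : ℝ) * ((iF hf k).card : ℝ)) := by
    intro k hk
    rw [card_iF, hq]
    exact hl' k hk
  obtain ⟨K, hK⟩ : ∃ K : ℕ, 2 * ((r + 2 : ℕ) : ℝ) ^ 2 / δ ≤ (K : ℝ) := exists_nat_ge _
  obtain ⟨m, hm0, hmn, hmB, hm4, hmK⟩ : ∃ m : ℕ, m₀ ≤ m ∧ n0 ≤ m ∧ B.natDegree + 1 ≤ m ∧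
      4 ≤ m ∧ 2 * K ≤ m :=
    ⟨max (max m₀ n0) (max (B.natDegree + 1) (max 4 (2 * K))), by omega, by omega, by omega,
      by omega, by omega⟩
  have hm1 : 1 ≤ m := by omega
  have hmpos : (0 : ℝ) < m := by exact_mod_cast hm1
  have hspos : (0 : ℝ) < ((r + 2 : ℕ) : ℝ) := by positivity
  obtain ⟨δ', hδ'⟩ : ∃ δ' : ℝ, δ' = δ / 2 * (3 / 4) ^ (r + 2) / (((r + 2 : ℕ) : ℝ) * m) :=
    ⟨_, rfl⟩
  have hδ'0 : 0 < δ' := by rw [hδ']; positivity
  obtain ⟨n1, hn1⟩ := hW r m δ' hδ'0 hm1
  refine ⟨max n1 m, fun n hn => ?_⟩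
  have hnn1 : n1 ≤ n := le_trans (le_max_left _ _) hn
  have hnm : m ≤ n := le_trans (le_max_right _ _) hn
  obtain ⟨hWp, hWj⟩ := hn1 n hnn1
  -- the set of all tuples
  have htf : (tpn F B (r + 2) n).Finite := (tup_finite hf (r + 2) n).subset
    fun R hR => ⟨fun i => ⟨(hR.1 i).1, (hR.1 i).2.1⟩, hR.2⟩
  have hTsub : T F m (r + 2) n ⊆ tpn F B (r + 2) n := by
    intro R hR
    refine ⟨fun i => ⟨(hR.1 i).1, (hR.1 i).2.1, ?_⟩, hR.2⟩
    rw [(hR.1 i).2.1.coprime_iff_not_dvd]
    intro hd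
    have := Polynomial.natDegree_le_of_dvd hd hB
    have := (hR.1 i).2.2
    omega
  have hTle : (tF hf m (r + 2) n).card ≤ (tpn F B (r + 2) n).ncard := by
    unfold tF
    rw [← Set.ncard_eq_toFinset_card _ (T_finite hf m (r + 2) n)]
    exact Set.ncard_le_ncard hTsub htf
  have hTle' : ((tF hf m (r + 2) n).card : ℝ) ≤ ((tpn F B (r + 2) n).ncard : ℝ) := by
    exact_mod_cast hTle
  have hlow := lower hf q hq0 m (fun k hk => hl k (hmn.trans hk)) (r + 2) n
  have hposl : 0 < (3 / 4 : ℝ) ^ (r + 2) * (q ^ n * Wn m (r + 2) n) := by positivity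
  have htot : 0 < ((tpn F B (r + 2) n).ncard : ℝ) := lt_of_lt_of_le hposl (hlow.trans hTle')
  refine ⟨by exact_mod_cast htot, ?_⟩
  -- the bad tuples
  have hbad : {R ∈ tpn F B (r + 2) n | ¬ (Function.Injective R ∧ ∀ i, m₀ ≤ (R i).natDegree)} ⊆
      (((univ : Finset (Fin (r + 2))).biUnion fun i =>
        (tF hf 1 (r + 2) n).filter (fun R => (R i).natDegree < m)) ∪
      (((univ : Finset (Fin (r + 2) × Fin (r + 2))).filter fun p => p.1 ≠ p.2).biUnion fun p =>
        (tF hf m (r + 2) n).filter (fun R => R p.1 = R p.2)) :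
        Finset (Fin (r + 2) → F[X])) := by
    rintro R ⟨hR, hb⟩
    rw [Finset.mem_coe, mem_union]
    by_cases hsm : ∃ i, (R i).natDegree < m
    · left
      obtain ⟨i, hi⟩ := hsm
      refine mem_biUnion.2 ⟨i, mem_univ _, mem_filter.2 ⟨mem_tF.2 ⟨fun i => ?_, hR.2⟩, hi⟩⟩
      exact ⟨(hR.1 i).1, (hR.1 i).2.1, (hR.1 i).2.1.natDegree_pos⟩
    · right
      push Not at hsm
      have hni : ¬ Function.Injective R := fun h => hb ⟨h, fun i => hm0.trans (hsm i)⟩
      unfold Function.Injective at hni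
      push Not at hni
      obtain ⟨i, j, h3, h4⟩ := hni
      refine mem_biUnion.2 ⟨(i, j), mem_filter.2 ⟨mem_univ _, h4⟩, mem_filter.2
        ⟨mem_tF.2 ⟨fun i => ?_, hR.2⟩, h3⟩⟩
      exact ⟨(hR.1 i).1, (hR.1 i).2.1, hsm i⟩
  have hbc : {R ∈ tpn F B (r + 2) n | ¬ (Function.Injective R ∧ ∀ i, m₀ ≤
      (R i).natDegree)}.ncard ≤
      ∑ i : Fin (r + 2), ((tF hf 1 (r + 2) n).filter (fun R => (R i).natDegree < m)).card +
      ∑ p ∈ (univ : Finset (Fin (r + 2) × Fin (r + 2))).filter (fun p => p.1 ≠ p.2),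
        ((tF hf m (r + 2) n).filter (fun R => R p.1 = R p.2)).card := by
    refine (Set.ncard_le_ncard hbad (Finset.finite_toSet _)).trans ?_
    rw [Set.ncard_coe_finset]
    exact (Finset.card_union_le _ _).trans (add_le_add Finset.card_biUnion_le
      Finset.card_biUnion_le)
  -- small degrees
  have hsmall : ∀ i : Fin (r + 2),
      (((tF hf 1 (r + 2) n).filter (fun R => (R i).natDegree < m)).card : ℝ) ≤
        m * (q ^ n * (δ' * Wn m (r + 2) n)) := by
    intro i
    have e1 := small_card hf m (r + 1) n i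
    have e2 : (((tF hf 1 (r + 2) n).filter (fun R => (R i).natDegree < m)).card : ℝ) ≤
        ∑ k ∈ (Finset.range m).filter (fun k => 1 ≤ k ∧ k ≤ n),
          ((iF hf k).card : ℝ) * ((tF hf 1 (r + 1) (n - k)).card : ℝ) := by
      exact_mod_cast e1
    refine e2.trans ?_
    have e3 : ∀ k ∈ (Finset.range m).filter (fun k => 1 ≤ k ∧ k ≤ n),
        ((iF hf k).card : ℝ) * ((tF hf 1 (r + 1) (n - k)).card : ℝ) ≤
          q ^ n * (δ' * Wn m (r + 2) n) := by
      intro k hk
      rw [mem_filter, Finset.mem_range] at hk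
      have f1 : ((iF hf k).card : ℝ) ≤ q ^ k := by
        have := hu k hk.2.1
        have hk1 : (1 : ℝ) ≤ k := by exact_mod_cast hk.2.1
        have h0 : (0 : ℝ) ≤ ((iF hf k).card : ℝ) := Nat.cast_nonneg _
        nlinarith
      have f2 := upper hf q hq0 hu 1 (r + 1) (n - k)
      have f3 := hWj k (by omega)
      calc ((iF hf k).card : ℝ) * ((tF hf 1 (r + 1) (n - k)).card : ℝ)
          ≤ q ^ k * (q ^ (n - k) * Wn 1 (r + 1) (n - k)) :=
            mul_le_mul f1 f2 (Nat.cast_nonneg _) (by positivity)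
        _ = q ^ n * Wn 1 (r + 1) (n - k) := by
            rw [← mul_assoc, ← pow_add, Nat.add_sub_cancel' hk.2.2]
        _ ≤ q ^ n * (δ' * Wn m (r + 2) n) := mul_le_mul_of_nonneg_left f3 (by positivity)
    refine (Finset.sum_le_card_nsmul _ _ _ e3).trans ?_
    rw [nsmul_eq_mul]
    refine mul_le_mul_of_nonneg_right ?_ (by positivity)
    have : ((Finset.range m).filter (fun k => 1 ≤ k ∧ k ≤ n)).card ≤ m :=
      (Finset.card_filter_le _ _).trans (Finset.card_range m).le
    exact_mod_cast this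
  -- equal entries
  have hKle : ∀ k, m ≤ k → K ≤ (iF hf k).card := by
    intro k hk
    have e1 := hl k (hmn.trans hk)
    have e2 : ((k * k : ℕ) : ℝ) ≤ ((2 ^ k : ℕ) : ℝ) := by
      exact_mod_cast sq_le_two_pow k (hm4.trans hk)
    push_cast at e2
    have e3 : (2 : ℝ) ^ k ≤ q ^ k := pow_le_pow_left₀ (by norm_num) hq2 k
    have hk0 : (0 : ℝ) < k := by
      have : 0 < k := by omega
      exact_mod_cast this
    have e4 : 3 * (k : ℝ) ≤ 4 * ((iF hf k).card : ℝ) := by
      have : (k : ℝ) * (3 * (k : ℝ)) ≤ (k : ℝ) * (4 * ((iF hf k).card : ℝ)) := by nlinarith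
      exact le_of_mul_le_mul_left this hk0
    have e5 : (2 : ℝ) * K ≤ k := by
      have : 2 * K ≤ k := hmK.trans hk
      exact_mod_cast this
    have e6 : (K : ℝ) ≤ ((iF hf k).card : ℝ) := by
      have h0 : (0 : ℝ) ≤ (K : ℝ) := Nat.cast_nonneg _
      linarith
    exact_mod_cast e6
  have hK0 : (0 : ℝ) < K := lt_of_lt_of_le (by positivity) hK
  have hequal : ∀ p ∈ (univ : Finset (Fin (r + 2) × Fin (r + 2))).filter (fun p => p.1 ≠ p.2),
      (((tF hf m (r + 2) n).filter (fun R => R p.1 = R p.2)).card : ℝ) ≤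
        ((tpn F B (r + 2) n).ncard : ℝ) / K := by
    intro p hp
    rw [mem_filter] at hp
    have e1 := equal_card hf m (r + 2) n K hKle p.1 p.2 hp.2
    have e2 : (((tF hf m (r + 2) n).filter (fun R => R p.1 = R p.2)).card : ℝ) * K ≤
        ((tF hf m (r + 2) n).card : ℝ) := by exact_mod_cast e1
    rw [le_div_iff₀ hK0]
    exact e2.trans hTle'
  have hsum1 : ∑ i : Fin (r + 2),
      (((tF hf 1 (r + 2) n).filter (fun R => (R i).natDegree < m)).card : ℝ) ≤
      δ / 2 * ((tpn F B (r + 2) n).ncard : ℝ) := by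
    refine (Finset.sum_le_card_nsmul _ _ _ fun i _ => hsmall i).trans ?_
    rw [nsmul_eq_mul, Finset.card_univ, Fintype.card_fin]
    have e1 : ((r + 2 : ℕ) : ℝ) * (m * (q ^ n * (δ' * Wn m (r + 2) n))) =
        δ / 2 * ((3 / 4 : ℝ) ^ (r + 2) * (q ^ n * Wn m (r + 2) n)) := by
      rw [hδ']
      field_simp
    rw [e1]
    exact mul_le_mul_of_nonneg_left (hlow.trans hTle') (by positivity)
  have hsum2 : ∑ p ∈ (univ : Finset (Fin (r + 2) × Fin (r + 2))).filter (fun p => p.1 ≠ p.2),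
      (((tF hf m (r + 2) n).filter (fun R => R p.1 = R p.2)).card : ℝ) ≤
      δ / 2 * ((tpn F B (r + 2) n).ncard : ℝ) := by
    refine (Finset.sum_le_card_nsmul _ _ _ hequal).trans ?_
    rw [nsmul_eq_mul]
    have e1 : ((((univ : Finset (Fin (r + 2) × Fin (r + 2))).filter
        (fun p => p.1 ≠ p.2)).card : ℕ) : ℝ) ≤ ((r + 2 : ℕ) : ℝ) ^ 2 := by
      have : ((univ : Finset (Fin (r + 2) × Fin (r + 2))).filter
        (fun p => p.1 ≠ p.2)).card ≤ (r + 2) ^ 2 := by
        refine (Finset.card_filter_le _ _).trans ?_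
        rw [Finset.card_univ, Fintype.card_prod, Fintype.card_fin, sq]
      exact_mod_cast this
    have e2 : ((r + 2 : ℕ) : ℝ) ^ 2 ≤ δ / 2 * K := by
      rw [div_le_iff₀ hδ] at hK
      linarith
    calc _ ≤ (δ / 2 * K) * (((tpn F B (r + 2) n).ncard : ℝ) / K) :=
          mul_le_mul_of_nonneg_right (e1.trans e2) (by positivity)
      _ = δ / 2 * ((tpn F B (r + 2) n).ncard : ℝ) := by
          field_simp
  have hfin : (({R ∈ tpn F B (r + 2) n | ¬ (Function.Injective R ∧ ∀ i, m₀ ≤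
      (R i).natDegree)}.ncard : ℕ) : ℝ) ≤
      ∑ i : Fin (r + 2),
        (((tF hf 1 (r + 2) n).filter (fun R => (R i).natDegree < m)).card : ℝ) +
      ∑ p ∈ (univ : Finset (Fin (r + 2) × Fin (r + 2))).filter (fun p => p.1 ≠ p.2),
        (((tF hf m (r + 2) n).filter (fun R => R p.1 = R p.2)).card : ℝ) := by
    exact_mod_cast hbc
  linarith

end Pool.Agent.MP72T
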