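import Pool.Agent.Lib.MP_72e2e6_nt.Sm.Y.Spec

/-!
# MP_72e2e6_nt, `Sm/Y/EndE`: the main theorem, abstract form (uniform version)
-/

namespace Pool.Agent.MP72S

open Finset

private theorem EndE_fs {α : Type} {S : Set α} (hS : S.Finite) (p : α → Prop) [DecidablePred p]
    (f : α → ℝ) :
    ∑ᶠ z ∈ {z ∈ S | p z}, f z = ∑ z ∈ hS.toFinset.filter p, f z := by
  have h : {z ∈ S | p z} = ↑(hS.toFinset.filter p) := by
    ext z
    simp
  rw [h, finsum_mem_coe_finset]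

private theorem EndE_ncard {α : Type} {S : Set α} (hS : S.Finite) (p : α → Prop)
    [DecidablePred p] : {z ∈ S | p z}.ncard = #(hS.toFinset.filter p) := by
  have h : {z ∈ S | p z} = ↑(hS.toFinset.filter p) := by
    ext z
    simp
  rw [h, Set.ncard_coe_finset]

private theorem EndE_tup {P ι : Type} [Fintype ι] [DecidableEq ι] (S : ι → Finset P) :
    (tup S).Finite := by
  refine (Fintype.piFinset S).finite_toSet.subset fun z hz => ?_
  rw [mem_coe, Fintype.mem_piFinset]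
  exact hz.1

/-- The iteration of the inequality for the potential. -/
private theorem EndE_iter (Φ : ℕ → ℝ) (C δ W : ℝ) (hδ : 0 ≤ δ) (hW : 0 ≤ W) (L : ℕ)
    (h1 : Φ 1 ≤ C * W) (h2 : ∀ K, 1 ≤ K → K ≤ L → Φ (K + 1) ≤ 61 / 64 * Φ K + δ * W) :
    ∀ k, k ≤ L → Φ (k + 1) ≤ ((61 / 64) ^ k * C + k * δ) * W := by
  intro k
  induction k with
  | zero =>
    intro _
    simpa using h1
  | succ k ih =>
    intro hk
    have h3 := ih (by omega)
    have h4 := h2 (k + 1) (by omega) hk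
    have h5 : 0 ≤ (k : ℝ) * δ * W := by positivity
    have h6 : (((61 : ℝ) / 64) ^ (k + 1) * C + ((k + 1 : ℕ) : ℝ) * δ) * W =
        61 / 64 * (((61 / 64) ^ k * C + k * δ) * W) + 3 / 64 * (k * δ * W) + δ * W := by
      push_cast
      ring
    rw [h6]
    linarith

/-- The final count. -/
private theorem EndE_cnt {α : Type} (T : Finset α) (A B Q : α → Prop) [DecidablePred A]
    [DecidablePred B] [DecidablePred Q] (h : ∀ z ∈ T, ¬ A z → ¬ B z → Q z) :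
    (#T : ℝ) ≤ #(T.filter A) + #(T.filter B) + #(T.filter Q) := by
  classical
  have h1 : T ⊆ T.filter A ∪ T.filter B ∪ T.filter Q := by
    intro z hz
    simp only [mem_union, mem_filter]
    by_cases hA : A z
    · exact Or.inl (Or.inl ⟨hz, hA⟩)
    by_cases hB : B z
    · exact Or.inl (Or.inr ⟨hz, hB⟩)
    exact Or.inr ⟨hz, h z hz hA hB⟩
  have h2 : #T ≤ #(T.filter A) + #(T.filter B) + #(T.filter Q) :=
    (card_le_card h1).trans ((card_union_le _ _).trans (by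
      have := card_union_le (T.filter A) (T.filter B)
      omega))
  exact_mod_cast h2

theorem tEndE : S_Dk1 → S_Evn → S_StpE → S_Inj2 → S_EndE := by
  intro hDk hEvn hStp hInj G N P R _ _ _ _ _ _ _ D E hf Gb Irr Adm hA hA2 hA3 h ε hε
  classical
  obtain ⟨C₀, hC₀⟩ := h.g1
  obtain ⟨C, hC⟩ : ∃ C : ℝ, C = max C₀ 0 := ⟨_, rfl⟩
  have hC0 : 0 ≤ C := by rw [hC]; exact le_max_right _ _
  obtain ⟨l, hl⟩ : ∃ l : ℕ, (61 / 64 : ℝ) ^ l * C ≤ ε := by
    have h1 : (0 : ℝ) < ε / (C + 1) := by positivity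
    obtain ⟨l, hl⟩ := exists_pow_lt_of_lt_one h1 (by norm_num : (61 / 64 : ℝ) < 1)
    refine ⟨l, ?_⟩
    have h2 : (61 / 64 : ℝ) ^ l * (C + 1) < ε := by rwa [lt_div_iff₀ (by positivity)] at hl
    have h3 : (0 : ℝ) ≤ (61 / 64) ^ l := by positivity
    nlinarith
  obtain ⟨r₀, hr₀⟩ := h.g2 (l + 1) ε hε
  refine ⟨l + 1, by omega, r₀, fun r hr => ?_⟩
  obtain ⟨Na, hNa⟩ := hC₀ r
  obtain ⟨Nb, hNb⟩ := hr₀ r hr
  obtain ⟨δ, hδdef⟩ : ∃ δ : ℝ, δ = ε / (l + 1) := ⟨_, rfl⟩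
  have hδ : 0 < δ := by rw [hδdef]; positivity
  have hlδ : (l : ℝ) * δ ≤ ε := by
    rw [hδdef, mul_div_assoc', div_le_iff₀ (by positivity)]
    nlinarith
  obtain ⟨Nc, hNc⟩ := hInj (P := P) (ι := Fin (r + 1)) ε hε
  have hst := hStp (ι := Fin (r + 1)) D Gb hA hA2 h.tau h.com
  choose! N1 hN1 using hst
  obtain ⟨Nd, hNd⟩ := h.inf (max Nc ((Finset.Icc 1 l).sup fun K => N1 K (l + 1) δ))
  have hspl := h.spl r
  choose n0 hn0 using hspl
  obtain ⟨M, hM⟩ : ∃ M : ℕ, M = max (max (max Na Nb) Nd)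
    ((Finset.Icc 1 l).sup fun K => n0 (N1 K (l + 1) δ)) := ⟨_, rfl⟩
  have hMa : Na ≤ M := by
    rw [hM]
    exact ((le_max_left _ _).trans (le_max_left _ _)).trans (le_max_left _ _)
  have hMb : Nb ≤ M := by
    rw [hM]
    exact ((le_max_right _ _).trans (le_max_left _ _)).trans (le_max_left _ _)
  have hMd : Nd ≤ M := by
    rw [hM]
    exact (le_max_right _ _).trans (le_max_left _ _)
  have hMe : ∀ K, 1 ≤ K → K ≤ l → n0 (N1 K (l + 1) δ) ≤ M := by
    intro K hK1 hK2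
    rw [hM]
    exact (le_sup (f := fun K => n0 (N1 K (l + 1) δ)) (mem_Icc.mpr ⟨hK1, hK2⟩)).trans
      (le_max_right _ _)
  refine ⟨M, fun n hnM hnle hAdm => ?_⟩
  have hok : ∀ z ∈ tup fun i => Irr (n i), D.Ok z := h.ok r n hAdm
  have hfin := EndE_tup fun i => Irr (n i)
  obtain ⟨W, hW⟩ : ∃ W : ℝ, W = ∏ i, (#(Irr (n i)) : ℝ) := ⟨_, rfl⟩
  have hW0 : 0 ≤ W := by
    rw [hW]
    exact prod_nonneg fun i _ => Nat.cast_nonneg _
  rw [← hW]
  -- the potential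
  obtain ⟨Φ, hΦ⟩ : ∃ Φ : ℕ → ℝ, Φ = fun K => ∑ᶠ z ∈ {z ∈ tup (fun i => Irr (n i)) |
      D.Pat (D.Dk z 1) (Fin.last r) (l + 1) ∧ 16 ≤ Nat.card (D.Dk z K)},
      (Nat.card (D.Dk z K) : ℝ) := ⟨_, rfl⟩
  have hΦ1 : Φ 1 ≤ C * W := by
    have h1 := hNa n hAdm fun i => hMa.trans (hnM i)
    rw [← hW, finsum_mem_eq_finite_toFinset_sum _ hfin] at h1
    have h2 : C₀ * W ≤ C * W := mul_le_mul_of_nonneg_right (by rw [hC]; exact le_max_left _ _) hW0
    refine le_trans ?_ (h1.trans h2)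
    rw [hΦ]
    simp only
    rw [EndE_fs hfin]
    exact sum_le_sum_of_subset_of_nonneg (filter_subset _ _) fun z _ _ => Nat.cast_nonneg _
  have hΦs : ∀ K, 1 ≤ K → K ≤ l → Φ (K + 1) ≤ 61 / 64 * Φ K + δ * W := by
    intro K hK1 hK2
    rw [hΦ, hW]
    refine hN1 K (l + 1) hK1 (by omega) δ hδ (Fin.last r) (fun i => Irr (n i)) (fun i hi => ?_)
      (fun i hi v hv => h.nS _ v hv) hok
      (hn0 _ n (fun i => (hMe K hK1 hK2).trans (hnM i)) hnle)
    have h1 := hNd (n i) (hMd.trans (hnM i))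
    refine le_trans ?_ ((le_max_right _ _).trans h1)
    exact le_sup (f := fun K => N1 K (l + 1) δ) (mem_Icc.mpr ⟨hK1, hK2⟩)
  have hΦL : Φ (l + 1) ≤ 2 * ε * W := by
    refine (EndE_iter Φ C δ W hδ.le hW0 l hΦ1 hΦs l le_rfl).trans ?_
    exact mul_le_mul_of_nonneg_right (by linarith) hW0
  -- the exceptional sets
  have hA16 : (16 : ℝ) * #(hfin.toFinset.filter fun z => D.Pat (D.Dk z 1) (Fin.last r) (l + 1) ∧
      16 ≤ Nat.card (D.Dk z (l + 1))) ≤ 2 * ε * W := by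
    refine le_trans ?_ hΦL
    rw [hΦ]
    simp only
    rw [EndE_fs hfin, mul_comm, ← nsmul_eq_mul]
    refine card_nsmul_le_sum _ _ _ fun z hz => ?_
    have h1 := (mem_filter.mp hz).2.2
    exact_mod_cast h1
  have hB1 : (#(hfin.toFinset.filter fun z => ¬ D.Pat (D.Dk z 1) (Fin.last r) (l + 1)) : ℝ) ≤
      ε * W := by
    have h1 := hNb n hAdm fun i => hMb.trans (hnM i)
    rw [← hW, EndE_fs hfin] at h1
    refine le_trans ?_ h1
    rw [← nsmul_one]
    refine card_nsmul_le_sum _ _ _ fun z hz => ?_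
    obtain ⟨s, hs⟩ := h.g3 r n hAdm z (hfin.mem_toFinset.mp (mem_filter.mp hz).1)
    rw [hs]
    exact_mod_cast Nat.one_le_pow _ _ (by norm_num)
  have hTc : (1 - ε) * W ≤ (hfin.toFinset.card : ℝ) := by
    have h1 := (hNc (fun i => Irr (n i)) fun i => (le_max_left _ _).trans
      (hNd (n i) (hMd.trans (hnM i)))).2
    rw [← hW, Set.ncard_eq_toFinset_card _ hfin] at h1
    exact h1
  have hfinal := EndE_cnt hfin.toFinset
    (fun z => D.Pat (D.Dk z 1) (Fin.last r) (l + 1) ∧ 16 ≤ Nat.card (D.Dk z (l + 1)))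
    (fun z => ¬ D.Pat (D.Dk z 1) (Fin.last r) (l + 1))
    (fun z => D.Dk z (l + 1) = D.T (Fin (r + 1))) (fun z hz hnA hnB => by
      have hz' := hfin.mem_toFinset.mp hz
      have h1 : Nat.card (D.Dk z (l + 1)) < 16 := by
        by_contra h2
        exact hnA ⟨not_not.mp hnB, not_lt.mp h2⟩
      exact hEvn D E hf hA hA2 hA3 z (hok z hz') (h.g3 r n hAdm z hz') (l + 1) (by omega) h1)
  rw [EndE_ncard hfin]
  nlinarith [mul_nonneg hε.le hW0]

end Pool.Agent.MP72S
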