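import Pool.Agent.Lib.MP_72e2e6_nt.Sm.Y.Spec

/-!
# MP_72e2e6_nt, `Sm/Y/FinE`: the final theorem, uniform version
-/

set_option autoImplicit false

namespace Pool.Agent.MP72S.HD

open Polynomial Finset Pool.Agent.MP72W Pool.Agent.MP72S.D

private theorem finE_two {F : Type} [Field F] [Finite F] (h : Nat.card F % 4 = 1) :
    (2 : F) ≠ 0 := by
  intro h2
  have : Fintype F := Fintype.ofFinite F
  have h3 : ringChar F = 2 := by
    have h4 : ringChar F ∣ 2 := ringChar.dvd (by exact_mod_cast h2)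
    rcases (Nat.dvd_prime Nat.prime_two).1 h4 with h5 | h5
    · have h6 := CharP.ringChar_ne_one (R := F)
      exact absurd h5 h6
    · exact h5
  have h4 := FiniteField.even_card_of_char_two h3
  rw [← Nat.card_eq_fintype_card] at h4
  omega

section

variable {F : Type} [Field F] {r : ℕ}

/-- The polynomials of a tuple of places. -/
private noncomputable def finEMp (z : Fin r → Pl F) : Fin r → F[X] := fun i =>
  match z i with
  | none => 0
  | some P => P.1

private theorem finEMp_some (R : Fin r → {P : F[X] // P.Monic ∧ Irreducible P}) :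
    finEMp (fun i => some (R i)) = fun i => (R i).1 := rfl

private theorem finE_lift {n : Fin r → ℕ} {z : Fin r → Pl F} (hz : ∀ i, z i ∈ SF.Irs F (n i)) :
    ∃ R : Fin r → {P : F[X] // P.Monic ∧ Irreducible P}, z = (fun i => some (R i)) ∧
      ∀ i, (R i).1.natDegree = n i := by
  choose R hR hR' using hz
  exact ⟨R, funext hR, hR'⟩

private theorem finE_inj {n : Fin r → ℕ} : Set.InjOn (finEMp (F := F) (r := r))
    {z | ∀ i, z i ∈ SF.Irs F (n i)} := by
  intro z hz z' hz' h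
  obtain ⟨R, rfl, -⟩ := finE_lift hz
  obtain ⟨R', rfl, -⟩ := finE_lift hz'
  rw [finEMp_some, finEMp_some] at h
  funext i
  exact congrArg some (Subtype.ext (congrFun h i))

private theorem finE_image (n : Fin r → ℕ) :
    tps F n = finEMp '' {z | ∀ i, z i ∈ SF.Irs F (n i)} := by
  ext R
  constructor
  · intro hR
    refine ⟨fun i => some ⟨R i, (hR i).1, (hR i).2.1⟩, fun i => ⟨_, rfl, (hR i).2.2⟩, rfl⟩
  · rintro ⟨z, hz, rfl⟩
    obtain ⟨R', rfl, h⟩ := finE_lift hz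
    exact fun i => ⟨(R' i).2.1, (R' i).2.2, h i⟩

private theorem finE_pi {n : Fin r → ℕ} {I : Fin r → Finset (Pl F)}
    (hI : ∀ i, (I i : Set (Pl F)) = SF.Irs F (n i)) :
    {z : Fin r → Pl F | ∀ i, z i ∈ SF.Irs F (n i)} = (Fintype.piFinset I : Set (Fin r → Pl F)) := by
  ext z
  rw [Finset.mem_coe, Fintype.mem_piFinset]
  refine forall_congr' fun i => ?_
  rw [← hI i, Finset.mem_coe]

private theorem finE_card {n : Fin r → ℕ} {I : Fin r → Finset (Pl F)}
    (hI : ∀ i, (I i : Set (Pl F)) = SF.Irs F (n i)) :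
    (tps F n).Finite ∧ (tps F n).ncard = ∏ i, #(I i) := by
  rw [finE_image, finE_inj.ncard_image, finE_pi hI]
  exact ⟨(Finset.finite_toSet _).image _, by rw [Set.ncard_coe_finset, Fintype.card_piFinset]⟩

end

/-- The case in which the last degree is the largest one. -/
private theorem finE_last (hLo : D.S_Lo) (hEnd : MP72S.S_EndE) (hAx : S_Ax) (hAx3 : S_Ax3)
    (hLv : S_LvE) (hIrf : S_Irf) (hCnc : S_Cnc) (F : Type) [Field F] [Finite F] (a : Fin 3 → F[X])
    (d : F[X]) (hH : Hy a d) (ε : ℝ) (hε : 0 < ε) :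
    ∃ r₀ : ℕ, ∀ r, r₀ ≤ r → ∃ N₁ : ℕ, ∀ n : Fin (r + 1) → ℕ, (∀ i, N₁ ≤ n i) →
    (∀ i, n i ≤ n (Fin.last r)) → Odd (d.natDegree + ∑ i, n i + mxd a) →
    (tps F n).Finite ∧
    (1 - ε) * ((tps F n).ncard : ℝ) ≤
      ({R ∈ tps F n |
        Finite (C.Wa fun i => algebraMap F[X] (RatFunc F) ((d * ∏ k, R k) * a i)).toAffine.Point ∧
        ShaTwoFin (C.Wa fun i =>
          algebraMap F[X] (RatFunc F) ((d * ∏ k, R k) * a i))}.ncard : ℝ) := by
  obtain ⟨A, hA⟩ := hLo F (finE_two hH.q4)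
  obtain ⟨⟨S, hS⟩, ⟨u, hu⟩, hirr⟩ := hIrf F a d A hH hA
  obtain ⟨-, ⟨n₁, hn₁⟩, -⟩ := hirr S
  obtain ⟨h1, h2⟩ := hAx F a d u S A hH hu hS hA
  obtain ⟨E, h3⟩ := hAx3 F a d u S A hH hu hS hA
  have h4 := hLv F a d u S A hH hu hS hA
  obtain ⟨L, hL, r₀, hr₀⟩ := hEnd (DD F a d u S A) E (C.hfU (Qf F)) (SF.Gb F) (irr F S) (Adm a d)
    h1 h2 h3 h4 (ε / 4) (by positivity)
  refine ⟨r₀, fun r hr => ?_⟩
  obtain ⟨N₁, hN₁⟩ := hr₀ r hr
  refine ⟨max N₁ n₁, fun n hn hlast hodd => ?_⟩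
  have hadm : Adm a d r n := hodd
  have hmain := hN₁ n (fun i => (le_max_left _ _).trans (hn i)) hlast hadm
  have hI : ∀ i, (irr F S (n i) : Set (Pl F)) = SF.Irs F (n i) := fun i =>
    hn₁ _ ((le_max_right _ _).trans (hn i))
  obtain ⟨hfin, hcard⟩ := finE_card hI
  refine ⟨hfin, ?_⟩
  rw [hcard]
  push_cast
  have he : (1 - ε) = 1 - 4 * (ε / 4) := by ring
  rw [he]
  refine hmain.trans ?_
  have hle : ({z ∈ tup fun i => irr F S (n i) |
        (DD F a d u S A).Dk z L = (DD F a d u S A).T (Fin (r + 1))}.ncard) ≤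
      {R ∈ tps F n |
        Finite (C.Wa fun i => algebraMap F[X] (RatFunc F) ((d * ∏ k, R k) * a i)).toAffine.Point ∧
        ShaTwoFin (C.Wa fun i => algebraMap F[X] (RatFunc F) ((d * ∏ k, R k) * a i))}.ncard := by
    have hmem : ∀ z ∈ {z ∈ tup fun i => irr F S (n i) |
        (DD F a d u S A).Dk z L = (DD F a d u S A).T (Fin (r + 1))},
        z ∈ {z : Fin (r + 1) → Pl F | ∀ i, z i ∈ SF.Irs F (n i)} := by
      intro z hz i
      rw [← hI i, Finset.mem_coe]
      exact hz.1.1 i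
    refine Set.ncard_le_ncard_of_injOn finEMp ?_ (finE_inj.mono hmem)
      (hfin.subset (Set.sep_subset _ _))
    intro z hz
    refine ⟨?_, ?_⟩
    · rw [finE_image]
      exact ⟨z, hmem z hz, rfl⟩
    · obtain ⟨R, rfl, -⟩ := finE_lift (hmem z hz)
      exact hCnc F a d u S A hH hu hS hA r n hadm R hz.1 L hL hz.2
  exact_mod_cast hle

private theorem finE_sym {F : Type} [Field F] {r : ℕ} (σ : Equiv.Perm (Fin r))
    (hσ : ∀ i, σ (σ i) = i) (n : Fin r → ℕ) (Q : F[X] → Prop) :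
    {R | R ∈ tps F (fun i => n (σ i)) ∧ Q (∏ k, R k)} =
      (fun (R : Fin r → F[X]) i => R (σ i)) '' {R | R ∈ tps F n ∧ Q (∏ k, R k)} := by
  ext R
  constructor
  · rintro ⟨hR, hQ⟩
    refine ⟨fun i => R (σ i), ⟨fun i => ?_, ?_⟩, ?_⟩
    · obtain ⟨h1, h2, h3⟩ := hR (σ i)
      change (R (σ i)).natDegree = n (σ (σ i)) at h3
      rw [hσ] at h3
      exact ⟨h1, h2, h3⟩
    · rw [Equiv.prod_comp σ R]
      exact hQ
    · funext i
      change R (σ (σ i)) = R i
      rw [hσ]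
  · rintro ⟨R', ⟨hR, hQ⟩, rfl⟩
    refine ⟨fun i => hR (σ i), ?_⟩
    change Q (∏ k, R' (σ k))
    rw [Equiv.prod_comp σ R']
    exact hQ

theorem tFinE (hLo : D.S_Lo) (hEnd : MP72S.S_EndE) (hAx : S_Ax) (hAx3 : S_Ax3) (hLv : S_LvE)
    (hIrf : S_Irf) (hCnc : S_Cnc) : S_FinE := by
  intro F _ _ a d hH ε hε
  obtain ⟨r₀, h0⟩ := finE_last hLo hEnd hAx hAx3 hLv hIrf hCnc F a d hH ε hε
  refine ⟨r₀, fun r hr => ?_⟩
  obtain ⟨N₁, h1⟩ := h0 r hr
  refine ⟨N₁, fun n hn hodd => ?_⟩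
  obtain ⟨j, -, hj⟩ := Finset.exists_max_image (Finset.univ : Finset (Fin (r + 1))) n
    Finset.univ_nonempty
  set σ : Equiv.Perm (Fin (r + 1)) := Equiv.swap j (Fin.last r) with hσdef
  have hσ : ∀ i, σ (σ i) = i := fun i => Equiv.swap_apply_self j (Fin.last r) i
  have hinj : Function.Injective (fun (R : Fin (r + 1) → F[X]) i => R (σ i)) := by
    intro R R' h
    funext i
    have h2 := congrFun h (σ i)
    change R (σ (σ i)) = R' (σ (σ i)) at h2
    rwa [hσ] at h2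
  have hlast : σ (Fin.last r) = j := Equiv.swap_apply_right j (Fin.last r)
  obtain ⟨hfin, hle⟩ := h1 (fun i => n (σ i)) (fun i => hn (σ i))
    (fun i => by rw [hlast]; exact hj _ (Finset.mem_univ _))
    (by rw [Equiv.sum_comp σ n]; exact hodd)
  have e1 : tps F (fun i => n (σ i)) = (fun (R : Fin (r + 1) → F[X]) i => R (σ i)) '' tps F n := by
    have h2 := finE_sym σ hσ n (fun _ : F[X] => True)
    simp only [and_true] at h2
    exact h2
  have e2 := finE_sym σ hσ n (fun D : F[X] =>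
    Finite (C.Wa fun i => algebraMap F[X] (RatFunc F) ((d * D) * a i)).toAffine.Point ∧
      ShaTwoFin (C.Wa fun i => algebraMap F[X] (RatFunc F) ((d * D) * a i)))
  refine ⟨?_, ?_⟩
  · rw [e1] at hfin
    exact Set.Finite.of_finite_image hfin hinj.injOn
  · have e3 : (tps F (fun i => n (σ i))).ncard = (tps F n).ncard := by
      rw [e1, Set.ncard_image_of_injective _ hinj]
    rw [e3] at hle
    refine hle.trans (le_of_eq ?_)
    refine congrArg Nat.cast ?_
    refine (congrArg Set.ncard e2).trans ?_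
    exact Set.ncard_image_of_injective _ hinj

end Pool.Agent.MP72S.HD
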