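import Pool.Agent.Lib.MP_72e2e6_nt.Sm.Y.Spec

/-!
# MP_72e2e6_nt, `Sm/Y/LvE`: the structure `LvlE`
-/

namespace Pool.Agent.MP72S.HD

open Polynomial Finset Pool.Agent.MP72W Pool.Agent.MP72S.D

private theorem LvE_two {F : Type} [Field F] [Finite F] (h : Nat.card F % 4 = 1) :
    (2 : F) ≠ 0 := by
  have hft : Fintype F := Fintype.ofFinite F
  apply Ring.two_ne_zero
  intro h2
  rw [FiniteField.even_card_iff_char_two] at h2
  rw [Nat.card_eq_fintype_card] at h
  omega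

private theorem LvE_grow (C s B q : ℕ) (hq : 2 ≤ q) :
    ∃ m₀, ∀ m, m₀ ≤ m → (C * (1 + (s + B * m))) ^ C ≤ q ^ m := by
  have h1 := tendsto_pow_const_div_const_pow_of_one_lt C (show (1 : ℝ) < q by exact_mod_cast hq)
  obtain ⟨E, hE⟩ : ∃ E : ℕ, E = (C * (1 + s + B)) ^ C := ⟨_, rfl⟩
  have h2 := h1.eventually_lt_const (show (0 : ℝ) < 1 / ((E : ℝ) + 1) by positivity)
  obtain ⟨m₀, hm₀⟩ := Filter.eventually_atTop.1 h2
  refine ⟨max m₀ 1, fun m hm => ?_⟩
  have h3 := hm₀ m ((le_max_left _ _).trans hm)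
  have h4 : 1 ≤ m := (le_max_right _ _).trans hm
  have hqm : (0 : ℝ) < (q : ℝ) ^ m := by positivity
  rw [div_lt_div_iff₀ hqm (by positivity), one_mul] at h3
  have h5 : (C * (1 + (s + B * m))) ^ C ≤ E * m ^ C := by
    rw [hE, ← mul_pow]
    refine Nat.pow_le_pow_left ?_ C
    rw [mul_assoc]
    refine Nat.mul_le_mul_left C ?_
    nlinarith
  have h6 : (E : ℝ) * (m : ℝ) ^ C ≤ (q : ℝ) ^ m := by
    have h7 : (0 : ℝ) ≤ (m : ℝ) ^ C := by positivity
    linarith [mul_comm ((m : ℝ) ^ C) ((E : ℝ) + 1), h3, mul_add ((m : ℝ) ^ C) (E : ℝ) 1,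
      mul_comm ((m : ℝ) ^ C) (E : ℝ)]
  have h8 : E * m ^ C ≤ q ^ m := by exact_mod_cast h6
  exact h5.trans h8

/-- **LvE**. The structure `LvlE`. -/
theorem tLvE (rq : D.S_Rq) (kk : D.S_Kk) (spl : S_SplE) (g1 : S_G1) (g2 : S_G2) (g3 : S_G3)
    (irf : S_Irf) (cm : S_Cm) (okt : S_Okt) : S_LvE := by
  intro F _ _ a d u S A hy hu hS hA
  have h2 : (2 : F) ≠ 0 := LvE_two hy.q4
  obtain ⟨-, k2, -⟩ := kk F
  obtain ⟨-, -, hirf⟩ := irf F a d A hy hA
  obtain ⟨i1, ⟨n₁, hn₁⟩, i3⟩ := hirf S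
  constructor
  case tau =>
    intro v c
    obtain ⟨-, r2, -⟩ := rq F h2 v.o (A v) (hA.ok v)
    exact r2 _ (hA.ok v).tg (c : Qf F) ((k2 _).1 c.2)
  case com =>
    intro σ τ
    exact cm F σ τ
  case nS =>
    intro n v hv
    exact ((i1 n v).1 hv).2
  case inf => exact i3
  case ok =>
    intro r n hn z hz
    exact okt F a d u S A hy hS hA r n hn z hz
  case spl =>
    intro r B
    obtain ⟨C, hC⟩ := spl F h2 A hA B
    have hq : 2 ≤ Nat.card F := Finite.one_lt_card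
    obtain ⟨m₀, hm₀⟩ := LvE_grow C (∑ w ∈ S, dgP w.o) B (Nat.card F) hq
    refine ⟨max n₁ m₀, fun n hn hle A' hA' hAS H hH hHo hHi hHt => ?_⟩
    have h3 := hn₁ (n (Fin.last r)) ((le_max_left _ _).trans (hn _))
    have hsum : ∑ w ∈ A', dgP w.o ≤ ∑ w ∈ S, dgP w.o + B * n (Fin.last r) := by
      classical
      rw [← sum_filter_add_sum_filter_not A' (fun w => w ∈ S)]
      refine add_le_add ?_ ?_
      · exact sum_le_sum_of_subset (fun w hw => (mem_filter.1 hw).2)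
      · have h4 : ∀ w ∈ A'.filter (fun w => w ∉ S), dgP w.o ≤ n (Fin.last r) := by
          intro w hw
          obtain ⟨hw1, hw2⟩ := mem_filter.1 hw
          rcases hAS w hw1 with h5 | ⟨i, -, hi⟩
          · exact absurd h5 hw2
          · obtain ⟨⟨Q, rfl, hQ⟩, -⟩ := (i1 (n i) w).1 hi
            exact (le_of_eq hQ).trans (hle i)
        refine (sum_le_card_nsmul _ _ _ h4).trans ?_
        rw [smul_eq_mul]
        exact Nat.mul_le_mul_right _ ((card_filter_le _ _).trans hA')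
    have h6 := hC H hH hHo hHi A' hHt (n (Fin.last r)) (le_trans (Nat.pow_le_pow_left
      (Nat.mul_le_mul_left C (Nat.add_le_add_left hsum 1)) C)
      (hm₀ _ ((le_max_right _ _).trans (hn _))))
    have h4 : (({c | c ∈ irr F S (n (Fin.last r)) ∧ (DD F a d u S A).phi c ∈ H} : Set (Pl F))) =
        {w | w ∈ SF.Irs F (n (Fin.last r)) ∧ (A w).rQ (A w).f ∈ H} := by
      ext w
      constructor
      · rintro ⟨hw, hw2⟩
        refine ⟨?_, hw2⟩
        rw [← h3]
        exact hw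
      · rintro ⟨hw, hw2⟩
        refine ⟨?_, hw2⟩
        rw [← h3] at hw
        exact hw
    have h5 : #(irr F S (n (Fin.last r))) = (SF.Irs F (n (Fin.last r))).ncard := by
      rw [← h3, Set.ncard_coe_finset]
    rw [h4, h5]
    exact h6
  case g1 => exact g1 F a d u S A hy hu hS hA
  case g2 => exact g2 F a d u S A hy hu hS hA
  case g3 => exact g3 F a d u S A hy hu hS hA

end Pool.Agent.MP72S.HD
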