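import Pool.Agent.Lib.MP_72e2e6_nt.Sm.All
import Pool.Agent.Lib.MP_72e2e6_nt.Sm.Y.PvE
import Pool.Agent.Lib.MP_72e2e6_nt.Sm.Y.IdxE
import Pool.Agent.Lib.MP_72e2e6_nt.Sm.Y.ClsE
import Pool.Agent.Lib.MP_72e2e6_nt.Sm.Y.BrgE
import Pool.Agent.Lib.MP_72e2e6_nt.Sm.Y.StpE
import Pool.Agent.Lib.MP_72e2e6_nt.Sm.Y.EndE
import Pool.Agent.Lib.MP_72e2e6_nt.Sm.Y.LvE
import Pool.Agent.Lib.MP_72e2e6_nt.Sm.Y.FinE
import Pool.Agent.Lib.MP_72e2e6_nt.Sm.Y.OutE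
import Pool.Agent.Lib.MP_72e2e6_nt.Sm.Y.CntA
import Pool.Agent.Lib.MP_72e2e6_nt.Sm.Y.CntW
import Pool.Agent.Lib.MP_72e2e6_nt.Sm.Y.Cor1
import Pool.Agent.Lib.MP_72e2e6_nt.Sm.Y.Cor2

/-!
# MP_72e2e6_nt, `Sm/Y`: assembly of the uniform version
-/

namespace Pool.Agent.MP72S

theorem aPvE : S_PvE := tPvE aFac aPsi0 aStr0 aStar aTin aUq aDk1 aObA bCf bGdc
theorem aClsE : S_ClsE := tClsE aCom aRat bHgr aPvE bCoe aTai aUq aDk1 bCf tIdxE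
theorem aBrgE : S_BrgE := tBrgE bCf bDom bHg bHz bHl aClsE bChs bSpt aSy1 aBas aDk1
theorem aStpE : S_StpE := tStpE aDk1 aSy1 aStF aBrgE
theorem aEndE : S_EndE := tEndE aDk1 aEvn aStpE tInj2

end Pool.Agent.MP72S

namespace Pool.Agent.MP72S.HD

theorem aLvE (h : S_SplE) : S_LvE :=
  tLvE D.aRq D.aKk h Lv.aHg.1 Lv.aHg.2.1 Lv.aHg.2.2 aIrf aCm aOkt

theorem aFinE (h : S_SplE) : S_FinE := tFinE D.aLo aEndE aAx aAx3 (aLvE h) aIrf aCnc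

end Pool.Agent.MP72S.HD

namespace Pool.Agent.MP72T

theorem aThmA (h : MP72S.HD.S_SplE) : ThmA := tOutE (MP72S.HD.aFinE h)

theorem aCntA : S_CntA := tCntA MP72S.SF.aIrc MP72S.D.aLo
theorem aCor2 : S_Cor2 := tCor2 aCntA tCntW

end Pool.Agent.MP72T
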