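import Pool.Agent.Lib.MP_72e2e6_nt.Sm.Y.Spec

/-!
# MP_72e2e6_nt, `Sm/Y/Cor`: the counting corollary
-/

namespace Pool.Agent.MP72T

open Polynomial WeierstrassCurve Finset

private theorem cor_two {F : Type} [Field F] [Finite F] {a : Fin 3 → F[X]} (h : Cur a) :
    (2 : F) ≠ 0 := by
  intro h2
  have q4 := h.q4
  have : Fintype F := Fintype.ofFinite F
  rw [Nat.card_eq_fintype_card] at q4
  have h3 : ringChar F = 2 := CharP.ringChar_of_prime_eq_zero Nat.prime_two (by exact_mod_cast h2)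
  have h4 := FiniteField.even_card_of_char_two h3
  omega

/-- A lower bound on all fibres gives a lower bound. -/
private theorem cor_fib {α β : Type} [DecidableEq β] (G : Finset α) (D : α → β) (P : α → Prop)
    [DecidablePred P] (ε : ℝ)
    (h : ∀ k ∈ G.image D, (1 - ε) * ((G.filter (fun R => D R = k)).card : ℝ) ≤
      ((G.filter (fun R => D R = k ∧ P R)).card : ℝ)) :
    (1 - ε) * (G.card : ℝ) ≤ ((G.filter P).card : ℝ) := by
  have e1 : G.card = ∑ k ∈ G.image D, (G.filter (fun R => D R = k)).card :=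
    Finset.card_eq_sum_card_image D G
  have e2 : (G.filter P).card = ∑ k ∈ G.image D, (G.filter (fun R => D R = k ∧ P R)).card := by
    rw [Finset.card_eq_sum_card_fiberwise (f := D) (t := G.image D) (fun R hR => by
      rw [Finset.mem_coe, mem_filter] at hR
      exact Finset.mem_coe.2 (mem_image_of_mem D hR.1))]
    refine Finset.sum_congr rfl fun k _ => ?_
    rw [Finset.filter_filter]
    exact congrArg Finset.card (Finset.filter_congr fun R _ => and_comm)
  rw [e1, e2]
  push_cast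
  rw [Finset.mul_sum]
  exact Finset.sum_le_sum h

theorem tCor : S_Cor1 → S_Cor2 → S_Cor := by
  classical
  intro h1 h2 hA F _ _ a ha d hd ε hε
  obtain ⟨r₀, hr₀⟩ := hA F a ha d hd (ε / 4) (by positivity)
  refine ⟨r₀ + 2, fun r hr => ?_⟩
  obtain ⟨r', rfl⟩ : ∃ r', r = r' + 2 := ⟨r - 2, by omega⟩
  obtain ⟨N₁, hN₁⟩ := hr₀ (r' + 1) (by omega)
  obtain ⟨B, hBd⟩ : ∃ B, B = d * ((a 0 - a 1) * (a 0 - a 2) * (a 1 - a 2)) := ⟨_, rfl⟩
  rw [← hBd]
  have hB : B ≠ 0 := by
    have hne : ∀ i j : Fin 3, i ≠ j → a i - a j ≠ 0 := fun i j hij h =>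
      hij (ha.inj (sub_eq_zero.1 h))
    rw [hBd]
    exact mul_ne_zero hd.sqf.ne_zero (mul_ne_zero (mul_ne_zero (hne 0 1 (by decide))
      (hne 0 2 (by decide))) (hne 1 2 (by decide)))
  obtain ⟨m₀, hm1, hm2⟩ : ∃ m₀, N₁ ≤ m₀ ∧ B.natDegree + 1 ≤ m₀ :=
    ⟨max N₁ (B.natDegree + 1), le_max_left _ _, le_max_right _ _⟩
  obtain ⟨δ, hδ0, hδ1, hδ2⟩ : ∃ δ : ℝ, 0 < δ ∧ δ ≤ ε / 4 ∧ δ ≤ 1 / 2 :=
    ⟨min (ε / 4) (1 / 2), by positivity, min_le_left _ _, min_le_right _ _⟩
  obtain ⟨n₀, hn₀⟩ := h2 F (cor_two ha) B hB r' m₀ δ hδ0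
  refine ⟨n₀, fun n hn hodd => ?_⟩
  obtain ⟨hpos, hbad⟩ := hn₀ n hn
  obtain ⟨hsf, htf, hQ⟩ := h1 F B (r' + 2) n (fun M => Fin0 a (d * M))
  obtain ⟨-, -, hT⟩ := h1 F B (r' + 2) n (fun _ => True)
  -- finite sets
  obtain ⟨t, ht⟩ : ∃ t : Finset (Fin (r' + 2) → F[X]), ∀ R, R ∈ t ↔ R ∈ tpn F B (r' + 2) n :=
    ⟨htf.toFinset, fun R => by rw [Set.Finite.mem_toFinset]⟩
  have hcard : ∀ (P : (Fin (r' + 2) → F[X]) → Prop) [DecidablePred P],
      {R ∈ tpn F B (r' + 2) n | P R}.ncard = (t.filter P).card := by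
    intro P _
    rw [← Set.ncard_coe_finset]
    refine congrArg Set.ncard (Set.ext fun R => ?_)
    rw [Finset.mem_coe, mem_filter, ht]
    rfl
  have htc : (tpn F B (r' + 2) n).ncard = t.card := by
    rw [← Set.ncard_coe_finset]
    refine congrArg Set.ncard (Set.ext fun R => ?_)
    rw [Finset.mem_coe, ht]
  rw [htc] at hpos hbad
  rw [hcard] at hbad hQ hT
  have htpos : (0 : ℝ) < t.card := by exact_mod_cast hpos
  -- the tuples with all degrees large
  have hG : (1 - ε / 4) * ((t.filter (fun R => ∀ i, m₀ ≤ (R i).natDegree)).card : ℝ) ≤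
      (((t.filter (fun R => ∀ i, m₀ ≤ (R i).natDegree)).filter
        (fun R => Fin0 a (d * ∏ k, R k))).card : ℝ) := by
    refine cor_fib _ (fun (R : Fin (r' + 2) → F[X]) (i : Fin (r' + 2)) => (R i).natDegree) _ _
      fun k hk => ?_
    rw [mem_image] at hk
    obtain ⟨R₀, hR₀, hk⟩ := hk
    rw [mem_filter, ht] at hR₀
    have hki : ∀ i, k i = (R₀ i).natDegree := fun i => by rw [← hk]
    have hkn : ∑ i, k i = n := by
      rw [← hR₀.1.2]
      exact Finset.sum_congr rfl fun i _ => hki i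
    have hkm : ∀ i, m₀ ≤ k i := fun i => by rw [hki]; exact hR₀.2 i
    obtain ⟨-, hle⟩ := hN₁ k (fun i => hm1.trans (hkm i)) (by rw [hkn]; exact hodd)
    have hiff : ∀ R : Fin (r' + 2) → F[X],
        (R ∈ t.filter (fun R => ∀ i, m₀ ≤ (R i).natDegree) ∧
          (fun i => (R i).natDegree) = k) ↔ R ∈ tps F k := by
      intro R
      rw [mem_filter, ht]
      constructor
      · rintro ⟨⟨h3, h4⟩, h5⟩ i
        exact ⟨(h3.1 i).1, (h3.1 i).2.1, congrFun h5 i⟩
      · intro hR
        have hdeg : ∀ i, (R i).natDegree = k i := fun i => (hR i).2.2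
        refine ⟨⟨⟨fun i => ⟨(hR i).1, (hR i).2.1, ?_⟩, ?_⟩, fun i => ?_⟩, funext hdeg⟩
        · rw [(hR i).2.1.coprime_iff_not_dvd]
          intro hdv
          have e1 := Polynomial.natDegree_le_of_dvd hdv hB
          have e2 := hkm i
          rw [hdeg i] at e1
          omega
        · rw [← hkn]
          exact Finset.sum_congr rfl fun i _ => hdeg i
        · rw [hdeg i]
          exact hkm i
    have e1 : (tps F k).ncard = ((t.filter (fun R => ∀ i, m₀ ≤ (R i).natDegree)).filter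
        (fun R => (fun i => (R i).natDegree) = k)).card := by
      rw [← Set.ncard_coe_finset]
      refine congrArg Set.ncard (Set.ext fun R => ?_)
      rw [Finset.mem_coe, Finset.mem_filter, hiff]
    have e2 : {R ∈ tps F k | Fin0 a (d * ∏ k, R k)}.ncard =
        ((t.filter (fun R => ∀ i, m₀ ≤ (R i).natDegree)).filter
        (fun R => (fun i => (R i).natDegree) = k ∧ Fin0 a (d * ∏ k, R k))).card := by
      rw [← Set.ncard_coe_finset]
      refine congrArg Set.ncard (Set.ext fun R => ?_)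
      rw [Finset.mem_coe, Finset.mem_filter, ← and_assoc, hiff]
      rfl
    rw [e1, e2] at hle
    exact hle
  have hG1 : (t.card : ℝ) ≤
      ((t.filter (fun R => ∀ i, m₀ ≤ (R i).natDegree)).card : ℝ) +
      ((t.filter (fun R => ¬ (Function.Injective R ∧ ∀ i, m₀ ≤ (R i).natDegree))).card : ℝ) := by
    have e1 : t ⊆ t.filter (fun R => ∀ i, m₀ ≤ (R i).natDegree) ∪
        t.filter (fun R => ¬ (Function.Injective R ∧ ∀ i, m₀ ≤ (R i).natDegree)) := by
      intro R hR
      rw [mem_union, mem_filter, mem_filter]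
      by_cases h3 : ∀ i, m₀ ≤ (R i).natDegree
      · exact Or.inl ⟨hR, h3⟩
      · exact Or.inr ⟨hR, fun h4 => h3 h4.2⟩
    exact_mod_cast (Finset.card_le_card e1).trans (Finset.card_union_le _ _)
  have hG2 : ((((t.filter (fun R => ∀ i, m₀ ≤ (R i).natDegree)).filter
        (fun R => Fin0 a (d * ∏ k, R k))).card : ℕ) : ℝ) ≤
      ((t.filter (fun R => Function.Injective R ∧ Fin0 a (d * ∏ k, R k))).card : ℝ) +
      ((t.filter (fun R => ¬ (Function.Injective R ∧ ∀ i, m₀ ≤ (R i).natDegree))).card : ℝ) := by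
    have e1 : (t.filter (fun R => ∀ i, m₀ ≤ (R i).natDegree)).filter
        (fun R => Fin0 a (d * ∏ k, R k)) ⊆
        t.filter (fun R => Function.Injective R ∧ Fin0 a (d * ∏ k, R k)) ∪
        t.filter (fun R => ¬ (Function.Injective R ∧ ∀ i, m₀ ≤ (R i).natDegree)) := by
      intro R hR
      rw [mem_filter, mem_filter] at hR
      rw [mem_union, mem_filter, mem_filter]
      by_cases h3 : Function.Injective R
      · exact Or.inl ⟨hR.1.1, h3, hR.2⟩
      · exact Or.inr ⟨hR.1.1, fun h4 => h3 h4.1⟩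
    exact_mod_cast (Finset.card_le_card e1).trans (Finset.card_union_le _ _)
  have hI : (t.card : ℝ) ≤
      ((t.filter (fun R => Function.Injective R ∧ True)).card : ℝ) +
      ((t.filter (fun R => ¬ (Function.Injective R ∧ ∀ i, m₀ ≤ (R i).natDegree))).card : ℝ) := by
    have e1 : t ⊆ t.filter (fun R => Function.Injective R ∧ True) ∪
        t.filter (fun R => ¬ (Function.Injective R ∧ ∀ i, m₀ ≤ (R i).natDegree)) := by
      intro R hR
      rw [mem_union, mem_filter, mem_filter]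
      by_cases h3 : Function.Injective R
      · exact Or.inl ⟨hR, h3, trivial⟩
      · exact Or.inr ⟨hR, fun h4 => h3 h4.1⟩
    exact_mod_cast (Finset.card_le_card e1).trans (Finset.card_union_le _ _)
  have hIle : ((t.filter (fun R => Function.Injective R ∧ True)).card : ℝ) ≤ t.card := by
    exact_mod_cast Finset.card_filter_le _ _
  have hsT : {M ∈ sqp F B (r' + 2) n | True} = sqp F B (r' + 2) n := by
    ext M
    exact ⟨fun h => h.1, fun h => ⟨h, trivial⟩⟩
  rw [hsT] at hT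
  have hT' : (((r' + 2).factorial : ℕ) : ℝ) * ((sqp F B (r' + 2) n).ncard : ℝ) =
      ((t.filter (fun R => Function.Injective R ∧ True)).card : ℝ) := by
    exact_mod_cast hT
  have hQ' : (((r' + 2).factorial : ℕ) : ℝ) *
      ({M ∈ sqp F B (r' + 2) n | Fin0 a (d * M)}.ncard : ℝ) =
      ((t.filter (fun R => Function.Injective R ∧ Fin0 a (d * ∏ k, R k))).card : ℝ) := by
    exact_mod_cast hQ
  have hfac : (0 : ℝ) < (((r' + 2).factorial : ℕ) : ℝ) := by
    exact_mod_cast Nat.factorial_pos _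
  have hbad' : ((t.filter (fun R => ¬ (Function.Injective R ∧
      ∀ i, m₀ ≤ (R i).natDegree))).card : ℝ) ≤ δ * t.card := hbad
  have hδt1 : δ * (t.card : ℝ) ≤ ε / 4 * t.card := mul_le_mul_of_nonneg_right hδ1 htpos.le
  have hδt2 : δ * (t.card : ℝ) ≤ 1 / 2 * t.card := mul_le_mul_of_nonneg_right hδ2 htpos.le
  constructor
  · have e1 : 0 < (((r' + 2).factorial : ℕ) : ℝ) * ((sqp F B (r' + 2) n).ncard : ℝ) := by
      rw [hT']
      linarith
    have e2 : (0 : ℝ) < ((sqp F B (r' + 2) n).ncard : ℝ) := by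
      rcases (mul_pos_iff.1 e1) with h | h
      · exact h.2
      · exact absurd h.1 (not_lt.2 hfac.le)
    have e3 : 0 < (sqp F B (r' + 2) n).ncard := by exact_mod_cast e2
    exact (Set.ncard_pos hsf).1 e3
  · by_cases hε1 : 1 ≤ ε
    · have e1 : (1 - ε) * ((sqp F B (r' + 2) n).ncard : ℝ) ≤ 0 :=
        mul_nonpos_of_nonpos_of_nonneg (by linarith) (Nat.cast_nonneg _)
      exact e1.trans (Nat.cast_nonneg _)
    · push Not at hε1
      have hg : (1 - ε / 4) * ((t.card : ℝ) - ε / 4 * t.card) ≤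
          (1 - ε / 4) * ((t.filter (fun R => ∀ i, m₀ ≤ (R i).natDegree)).card : ℝ) :=
        mul_le_mul_of_nonneg_left (by linarith) (by linarith)
      have hg2 : (1 - ε) * (t.card : ℝ) ≤
          ((t.filter (fun R => Function.Injective R ∧ Fin0 a (d * ∏ k, R k))).card : ℝ) := by
        have e5 : 0 ≤ ε ^ 2 * (t.card : ℝ) := by positivity
        have e6 : 0 ≤ ε * (t.card : ℝ) := by positivity
        have e7 : (1 - ε / 4) * ((t.card : ℝ) - ε / 4 * t.card) =
            t.card - ε / 2 * t.card + ε ^ 2 * t.card / 16 := by ring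
        linarith
      have hg3 : (1 - ε) * ((((r' + 2).factorial : ℕ) : ℝ) *
          ((sqp F B (r' + 2) n).ncard : ℝ)) ≤ (((r' + 2).factorial : ℕ) : ℝ) *
          ({M ∈ sqp F B (r' + 2) n | Fin0 a (d * M)}.ncard : ℝ) := by
        rw [hT', hQ']
        exact (mul_le_mul_of_nonneg_left hIle (by linarith)).trans hg2
      have hg4 : (((r' + 2).factorial : ℕ) : ℝ) * ((1 - ε) *
          ((sqp F B (r' + 2) n).ncard : ℝ)) ≤ (((r' + 2).factorial : ℕ) : ℝ) *
          ({M ∈ sqp F B (r' + 2) n | Fin0 a (d * M)}.ncard : ℝ) := by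
        calc _ = (1 - ε) * ((((r' + 2).factorial : ℕ) : ℝ) *
            ((sqp F B (r' + 2) n).ncard : ℝ)) := by ring
          _ ≤ _ := hg3
      exact le_of_mul_le_mul_left hg4 hfac

end Pool.Agent.MP72T
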