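import Pool.Agent.Lib.MP_72e2e6_nt.Sm.Y.Spec
import Pool.Agent.Lib.MP_72e2e6_nt.W2.Fin.Eqv

/-!
# MP_72e2e6_nt, `Sm/Y`: the literal statement follows from `HD.S_FinE`
-/

namespace Pool.Agent.MP72T

open Polynomial WeierstrassCurve

private theorem outE_mxd {F : Type} [Field F] (a : Fin 3 → F[X]) :
    MP72S.HD.mxd a = mxd a := by
  have h10 : (a 1 - a 0).natDegree = (a 0 - a 1).natDegree := by
    rw [← neg_sub, natDegree_neg]
  have h20 : (a 2 - a 0).natDegree = (a 0 - a 2).natDegree := by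
    rw [← neg_sub, natDegree_neg]
  have h21 : (a 2 - a 1).natDegree = (a 1 - a 2).natDegree := by
    rw [← neg_sub, natDegree_neg]
  have h3 : ∀ f : Fin 3 → ℕ, (Finset.univ.sup f) = max (f 0) (max (f 1) (f 2)) := by
    intro f
    have hu : (Finset.univ : Finset (Fin 3)) = {0, 1, 2} := rfl
    rw [hu, Finset.sup_insert, Finset.sup_insert, Finset.sup_singleton]
  unfold MP72S.HD.mxd mxd
  rw [h3]
  simp only [h3, sub_self, natDegree_zero, h10, h20, h21]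
  omega

private theorem outE_hyp {F : Type} [Field F] {a : Fin 3 → F[X]} {d : F[X]} (h : Cur a)
    (hd : Tam a d) : MP72S.HD.Hy a d :=
  ⟨h.q4, h.inj, h.nis, hd.sqf, hd.odd⟩

theorem tOutE : S_OutE := by
  intro h F _ _ a ha d hd ε hε
  obtain ⟨r₀, h⟩ := h F a d (outE_hyp ha hd) ε hε
  refine ⟨r₀, fun r hr => ?_⟩
  obtain ⟨N₁, h⟩ := h r hr
  refine ⟨N₁, fun n hn hodd => ?_⟩
  rw [← outE_mxd] at hodd
  obtain ⟨hfin, hle⟩ := h n hn hodd
  refine ⟨hfin, hle.trans (Nat.cast_le.2 (Set.ncard_le_ncard ?_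
    (hfin.subset fun R hR => hR.1)))⟩
  rintro R ⟨hR, hf, hs⟩
  exact ⟨hR, hf, MP72Y.shaTwoFin_of _ hs⟩

end Pool.Agent.MP72T
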